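import Mathlib

set_option autoImplicit false
set_option linter.unusedVariables false

namespace Pool.Agent.KS6_69.Ric.H662.Rz

open Set Filter Topology ComplexConjugate Finset

/-- Wirtinger derivative in `z`. -/
noncomputable def dz (f : ℂ → ℂ) (z : ℂ) : ℂ :=
  (fderiv ℝ f z 1 - Complex.I * fderiv ℝ f z Complex.I) / 2

/-- Wirtinger derivative in `z̄`. -/
noncomputable def dzb (f : ℂ → ℂ) (z : ℂ) : ℂ :=
  (fderiv ℝ f z 1 + Complex.I * fderiv ℝ f z Complex.I) / 2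

/-- a real function seen as a complex one. -/
def cR (φ : ℂ → ℝ) (z : ℂ) : ℂ := (φ z : ℂ)

/-- real-smooth complex functions -/
def Sm (f : ℂ → ℂ) : Prop := ContDiff ℝ ((⊤ : ℕ∞) : WithTop ℕ∞) f

/-- real-smooth real functions -/
def SmR (φ : ℂ → ℝ) : Prop := ContDiff ℝ ((⊤ : ℕ∞) : WithTop ℕ∞) φ

/-- `∂² φ / ∂z ∂z̄`. -/
noncomputable def th (φ : ℂ → ℝ) (z : ℂ) : ℝ := (dzb (dz (cR φ)) z).re

/-- the universal profile: `(x q')' = b`, `b` a bump. -/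
structure QD where
  q : ℝ → ℝ
  b : ℝ → ℝ
  M : ℝ
  c0 : ℝ
  Cb : ℝ
  hq : ContDiff ℝ ((⊤ : ℕ∞) : WithTop ℕ∞) q
  hb : ContDiff ℝ ((⊤ : ℕ∞) : WithTop ℕ∞) b
  hM : 0 < M
  hCb : 1 ≤ Cb
  b0 : ∀ x, 0 ≤ b x
  b1 : ∀ x, b x ≤ 1
  bone : ∀ x, 1 / 2 ≤ x → x ≤ 2 → b x = 1
  bl : ∀ x, x ≤ 1 / 4 → b x = 0
  br : ∀ x, 4 ≤ x → b x = 0
  db : ∀ x, |deriv b x| ≤ Cb
  ddb : ∀ x, |deriv (deriv b) x| ≤ Cb
  ql : ∀ x, x ≤ 1 / 4 → q x = 0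
  qr : ∀ x, 4 ≤ x → q x = M * Real.log x + c0
  qb : ∀ x, deriv q x + x * deriv (deriv q) x = b x

/-- sequences of polynomials with nonnegative coefficients, summable everywhere -/
def NP (p : ℕ → Polynomial ℝ) : Prop :=
  (∀ j n, 0 ≤ (p j).coeff n) ∧ ∀ r : ℝ, 0 ≤ r → Summable (fun j => (p j).eval r)

/-- the sum of a sequence of polynomials -/
noncomputable def TS (p : ℕ → Polynomial ℝ) (x : ℝ) : ℝ := ∑' j, (p j).eval x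

/-- termwise derivative -/
noncomputable def DP (p : ℕ → Polynomial ℝ) (j : ℕ) : Polynomial ℝ := Polynomial.derivative (p j)

noncomputable def uP (K : ℕ → ℕ) (j : ℕ) : Polynomial ℝ :=
  ∑ k ∈ range (K j), Polynomial.C (1 / (((k : ℝ) + 1) * 4 ^ (j * (k + 1)))) * Polynomial.X ^ (k + 1)

noncomputable def pP (K : ℕ → ℕ) (j : ℕ) : Polynomial ℝ :=
  Polynomial.C (1 / 4 ^ (j * (2 * K j + 1))) * Polynomial.X ^ (2 * K j + 1)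

/-- `u = ∑_j ∑_{k ≤ K_j} x_j^k / k`, where `x_j = x / 4^j`. -/
noncomputable def u (K : ℕ → ℕ) : ℝ → ℝ := TS (uP K)

/-- `P = ∑_j x_j^(2 K_j + 1)`. -/
noncomputable def P (K : ℕ → ℕ) : ℝ → ℝ := TS (pP K)

noncomputable def s (K : ℕ → ℕ) (j : ℕ) (x : ℝ) : ℝ := ∑ k ∈ range (K j), (x / 4 ^ j) ^ (k + 1)

noncomputable def ds (K : ℕ → ℕ) (j : ℕ) (x : ℝ) : ℝ :=
  ∑ k ∈ range (K j), ((k : ℝ) + 1) * (x / 4 ^ j) ^ (k + 1)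

noncomputable def S (K : ℕ → ℕ) (x : ℝ) : ℝ := 1 + ∑' j, s K j x

/-- `F' + x F''` -/
noncomputable def lp (F : ℝ → ℝ) (x : ℝ) : ℝ := deriv F x + x * deriv (deriv F) x

/-- `y_j = (z / 2^j)^(K_j^2)` -/
noncomputable def yy (K : ℕ → ℕ) (j : ℕ) (z : ℂ) : ℂ := (z / 2 ^ j) ^ (K j ^ 2)

/-- the spike function of stage `j` -/
noncomputable def hh (Q : QD) (K : ℕ → ℕ) (j : ℕ) (z : ℂ) : ℝ :=
  64 * Q.q (‖yy K j z‖ ^ 2) + Q.q (‖8 * (K j : ℂ) * (1 - yy K j z)‖ ^ 2)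
    - Q.q (‖8 * (1 - yy K j z)‖ ^ 2) - 2 * Q.M * Real.log (K j)

/-- the sum of all the spike functions -/
noncomputable def Xi (Q : QD) (K : ℕ → ℕ) (z : ℂ) : ℝ := ∑' j : ℕ, (1 / ((j : ℝ) + 1)) * hh Q K j z

/-- the exponent of the weight -/
noncomputable def phi (Q : QD) (K : ℕ → ℕ) (z : ℂ) : ℝ := ‖z‖ ^ 2 + P K (‖z‖ ^ 2) + Xi Q K z

/-- the metric of the base -/
noncomputable def g0f (Λ : ℝ) (K : ℕ → ℕ) (z : ℂ) : ℝ := Λ * Real.exp (80 * u K (‖z‖ ^ 2))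

/-- a Lipschitz function on the base -/
noncomputable def psif (Λ : ℝ) (K : ℕ → ℕ) (z : ℂ) : ℝ :=
  Real.sqrt (1 + ‖z‖ ^ 2) * (Real.sqrt Λ * Real.exp (40 * u K (‖z‖ ^ 2))) / S K (‖z‖ ^ 2)

/-- the properties of the data on the base which are used in the geometric part -/
structure BG (φ g0 ψ T V : ℂ → ℝ) (C : ℝ) : Prop where
  sφ : SmR φ
  sg : SmR g0
  gpos : ∀ z, 0 < g0 z
  th1 : ∀ z, 1 ≤ th φ z
  thT : ∀ z, th φ z ≤ T z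
  sgT : ∀ z, ‖dz (cR (th φ)) z‖ ≤ T z
  ktT : ∀ z, |th (th φ) z| ≤ T z
  V0 : ∀ z, 0 ≤ V z
  gV : ∀ z, ‖dz (cR g0) z‖ ^ 2 ≤ V z * g0 z ^ 2
  gbig : ∀ z, 200 * (T z ^ 6 + V z * T z) ≤ g0 z
  gk : ∀ z, g0 z ≤ th g0 z - ‖dz (cR g0) z‖ ^ 2 / g0 z
  C1 : 1 ≤ C
  dψ : Differentiable ℝ ψ
  lψ : ∀ z v, |fderiv ℝ ψ z v| ≤ C * (Real.sqrt (g0 z) * ‖v‖)
  nψ : ∀ z, ‖z‖ ≤ ψ z
  base : ∀ z, g0 z ^ 2 ≤ C * ((th g0 z - ‖dz (cR g0) z‖ ^ 2 / g0 z) + th φ z * g0 z)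
    * (1 + ψ z ^ 2)

end Pool.Agent.KS6_69.Ric.H662.Rz
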