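import Pool.Agent.KS6_69.Ric.H662.Rz.Defs
import Pool.Agent.KS6_69.Ric.H662.Rz.P_w_smooth
import Pool.Agent.KS6_69.Ric.H662.Rz.P_w_comm
import Pool.Agent.KS6_69.Ric.H662.Rz.P_w_conj

set_option autoImplicit false
set_option linter.unusedVariables false

namespace Pool.Agent.KS6_69.Ric.H662.Rz
open Set Filter Topology ComplexConjugate Finset


lemma w_real_aux {g : ℂ → ℂ} (z : ℂ) (hg : DifferentiableAt ℝ g z) :
    dz (fun w => conj (g w)) z = conj (dzb g z) := by
  have h1 : HasFDerivAt (fun w => conj (g w))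
      ((Complex.conjCLE : ℂ →L[ℝ] ℂ).comp (fderiv ℝ g z)) z :=
    (Complex.conjCLE : ℂ →L[ℝ] ℂ).hasFDerivAt.comp z hg.hasFDerivAt
  unfold dz dzb
  rw [h1.fderiv]
  simp only [ContinuousLinearMap.comp_apply, map_div₀, map_add, map_mul, Complex.conj_I]
  have h2 : conj (2 : ℂ) = 2 := Complex.conj_ofNat 2
  rw [h2]
  simp
  ring

theorem w_real {φ : ℂ → ℝ} (h : SmR φ) (z : ℂ) : dzb (dz (cR φ)) z = ((th φ z : ℝ) : ℂ) := by
  have hf : Sm (cR φ) := by
    unfold Sm cR
    exact Complex.ofRealCLM.contDiff.comp h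
  have h1 : Sm (dz (cR φ)) := (w_smooth hf).1
  have h2 : DifferentiableAt ℝ (dz (cR φ)) z := by
    have : Differentiable ℝ (dz (cR φ)) := ContDiff.differentiable h1 (by simp)
    exact this z
  have h3 : (fun w => conj (dz (cR φ) w)) = dzb (cR φ) := by
    funext w
    rw [w_conj h]
  have h4 := w_real_aux z h2
  rw [h3, w_comm hf] at h4
  unfold th
  exact (Complex.conj_eq_iff_re.1 h4.symm).symm

end Pool.Agent.KS6_69.Ric.H662.Rz
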