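import Pool.Agent.KS6_69.Ric.H662.Rz.Defs

set_option autoImplicit false
set_option linter.unusedVariables false

namespace Pool.Agent.KS6_69.Ric.H662.Rz
open Set Filter Topology ComplexConjugate Finset


theorem s_summ (K : ℕ → ℕ) {x : ℝ} (hx : 0 ≤ x) :
    Summable (fun j => s K j x) ∧ Summable (fun j => ds K j x) := by
  have hg : ∀ n : ℕ, ∑ k ∈ range n, (1 / 2 : ℝ) ^ k ≤ 2 := by
    intro n
    have h := (summable_geometric_of_lt_one (r := (1 / 2 : ℝ)) (by norm_num)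
      (by norm_num)).sum_le_tsum (range n) (fun i _ => by positivity)
    rwa [tsum_geometric_two] at h
  have hev : ∀ᶠ j : ℕ in atTop, x / 4 ^ j ≤ 1 / 4 := by
    have h1 : Tendsto (fun j : ℕ => x * (1 / 4 : ℝ) ^ j) atTop (𝓝 (x * 0)) :=
      (tendsto_pow_atTop_nhds_zero_of_lt_one (by norm_num) (by norm_num)).const_mul x
    rw [mul_zero] at h1
    filter_upwards [h1.eventually_le_const (show (0 : ℝ) < 1 / 4 by norm_num)] with j hj
    rw [one_div, inv_pow, ← div_eq_mul_inv] at hj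
    rw [one_div]; exact hj
  have hsum : Summable (fun j : ℕ => 2 * (x / 4 ^ j)) := by
    have h1 : Summable (fun j : ℕ => (2 * x) * (1 / 4 : ℝ) ^ j) :=
      (summable_geometric_of_lt_one (by norm_num) (by norm_num)).mul_left _
    refine h1.congr fun j => ?_
    rw [one_div, inv_pow]; ring
  have hk : ∀ k : ℕ, ((k : ℝ) + 1) ≤ 2 ^ k := by
    intro k
    have h : k + 1 ≤ 2 ^ k := Nat.lt_two_pow_self
    exact_mod_cast h
  have hb : ∀ j : ℕ, x / 4 ^ j ≤ 1 / 4 → ds K j x ≤ 2 * (x / 4 ^ j) := by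
    intro j hj
    have hy : 0 ≤ x / 4 ^ j := by positivity
    unfold ds
    have h1 : ∀ k ∈ range (K j), ((k : ℝ) + 1) * (x / 4 ^ j) ^ (k + 1)
        ≤ (x / 4 ^ j) * (1 / 2 : ℝ) ^ k := by
      intro k _
      have h2 : (x / 4 ^ j) ^ k ≤ (1 / 4 : ℝ) ^ k := pow_le_pow_left₀ hy hj k
      have h3 : (2 : ℝ) ^ k * (1 / 4 : ℝ) ^ k = (1 / 2 : ℝ) ^ k := by
        rw [← mul_pow]; norm_num
      calc ((k : ℝ) + 1) * (x / 4 ^ j) ^ (k + 1)
          = (x / 4 ^ j) * (((k : ℝ) + 1) * (x / 4 ^ j) ^ k) := by ring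
        _ ≤ (x / 4 ^ j) * (2 ^ k * (1 / 4 : ℝ) ^ k) :=
            mul_le_mul_of_nonneg_left (mul_le_mul (hk k) h2 (by positivity) (by positivity)) hy
        _ = _ := by rw [h3]
    calc _ ≤ ∑ k ∈ range (K j), (x / 4 ^ j) * (1 / 2 : ℝ) ^ k := Finset.sum_le_sum h1
      _ = (x / 4 ^ j) * ∑ k ∈ range (K j), (1 / 2 : ℝ) ^ k := by rw [Finset.mul_sum]
      _ ≤ (x / 4 ^ j) * 2 := mul_le_mul_of_nonneg_left (hg _) hy
      _ = _ := by ring
  have h0s : ∀ j, 0 ≤ s K j x := by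
    intro j; unfold s
    exact Finset.sum_nonneg fun k _ => by positivity
  have hsd : ∀ j, s K j x ≤ ds K j x := by
    intro j; unfold s ds
    refine Finset.sum_le_sum fun k _ => ?_
    have : 0 ≤ (x / 4 ^ j) ^ (k + 1) := by positivity
    have hk0 : (0 : ℝ) ≤ k := Nat.cast_nonneg k
    nlinarith
  have h0d : ∀ j, 0 ≤ ds K j x := fun j => (h0s j).trans (hsd j)
  constructor
  · refine Summable.of_norm_bounded_eventually_nat hsum ?_
    filter_upwards [hev] with j hj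
    rw [Real.norm_of_nonneg (h0s j)]
    exact (hsd j).trans (hb j hj)
  · refine Summable.of_norm_bounded_eventually_nat hsum ?_
    filter_upwards [hev] with j hj
    rw [Real.norm_of_nonneg (h0d j)]
    exact hb j hj

end Pool.Agent.KS6_69.Ric.H662.Rz
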