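import Pool.Agent.KS6_69.Ric.H662.Rz.Defs

set_option autoImplicit false
set_option linter.unusedVariables false

namespace Pool.Agent.KS6_69.Ric.H662.Rz
open Set Filter Topology ComplexConjugate Finset

theorem n_deriv_pow (r : ℝ) (hr : 0 ≤ r) (i : ℕ) : ((i : ℝ) + 1) * r ^ i ≤ (r + 1) ^ (i + 1) := by
  induction i with
  | zero =>
    simp
    exact hr
  | succ i ih =>
    have h1 : r ^ (i + 1) ≤ (r + 1) ^ (i + 1) := pow_le_pow_left₀ hr (by linarith) _
    have h2 := mul_le_mul_of_nonneg_left ih hr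
    have h3 : (r + 1) ^ (i + 1 + 1) = r * (r + 1) ^ (i + 1) + (r + 1) ^ (i + 1) := by ring
    have h4 : r * (((i : ℝ) + 1) * r ^ i) = ((i : ℝ) + 1) * r ^ (i + 1) := by ring
    rw [h3]
    push_cast
    linarith

theorem n_deriv_le (P : Polynomial ℝ) (hP : ∀ n, 0 ≤ P.coeff n) (r : ℝ) (hr : 0 ≤ r) :
    0 ≤ (Polynomial.derivative P).eval r ∧ (Polynomial.derivative P).eval r ≤ P.eval (r + 1) := by
  have hd : (Polynomial.derivative P).natDegree < P.natDegree + 1 :=
    lt_of_le_of_lt (Polynomial.natDegree_derivative_le P) (by omega)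
  have hd2 : P.natDegree < P.natDegree + 1 + 1 := by omega
  rw [Polynomial.eval_eq_sum_range' hd, Polynomial.eval_eq_sum_range' hd2,
    Finset.sum_range_succ' _ (P.natDegree + 1)]
  constructor
  · apply Finset.sum_nonneg
    intro i _
    rw [Polynomial.coeff_derivative]
    have := hP (i + 1)
    positivity
  · have h0 : 0 ≤ P.coeff 0 * (r + 1) ^ 0 := by
      have := hP 0
      positivity
    have h1 : ∑ i ∈ range (P.natDegree + 1), (Polynomial.derivative P).coeff i * r ^ i ≤
        ∑ i ∈ range (P.natDegree + 1), P.coeff (i + 1) * (r + 1) ^ (i + 1) := by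
      apply Finset.sum_le_sum
      intro i _
      rw [Polynomial.coeff_derivative, mul_assoc]
      exact mul_le_mul_of_nonneg_left (n_deriv_pow r hr i) (hP _)
    linarith

theorem n_deriv {p : ℕ → Polynomial ℝ} (h : NP p) : NP (DP p) := by
  refine ⟨?_, ?_⟩
  · intro j n
    unfold DP
    rw [Polynomial.coeff_derivative]
    have := h.1 j (n + 1)
    positivity
  · intro r hr
    refine Summable.of_nonneg_of_le (fun j => (n_deriv_le (p j) (h.1 j) r hr).1)
      (fun j => (n_deriv_le (p j) (h.1 j) r hr).2) (h.2 (r + 1) (by linarith))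

end Pool.Agent.KS6_69.Ric.H662.Rz
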