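import Pool.Agent.KS6_69.Ric.H662.Rz.Defs
import Pool.Agent.KS6_69.Ric.H662.Rz.P_n_deriv

set_option autoImplicit false
set_option linter.unusedVariables false

namespace Pool.Agent.KS6_69.Ric.H662.Rz
open Set Filter Topology ComplexConjugate Finset


theorem n_hasDeriv_bound (q : Polynomial ℝ) (hq : ∀ n, 0 ≤ q.coeff n) (y R : ℝ)
    (hy : |y| ≤ R) : |q.eval y| ≤ q.eval R := by
  rw [Polynomial.eval_eq_sum_range, Polynomial.eval_eq_sum_range]
  refine (Finset.abs_sum_le_sum_abs _ _).trans (Finset.sum_le_sum (fun i _ => ?_))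
  rw [abs_mul, abs_of_nonneg (hq i), abs_pow]
  exact mul_le_mul_of_nonneg_left (pow_le_pow_left₀ (abs_nonneg _) hy i) (hq i)

theorem n_hasDeriv {p : ℕ → Polynomial ℝ} (h : NP p) (x : ℝ) :
    HasDerivAt (TS p) (TS (DP p) x) x := by
  have hD := n_deriv h
  have hR : (0 : ℝ) ≤ |x| + 1 := by positivity
  have hx : x ∈ Metric.ball (0 : ℝ) (|x| + 1) := by
    rw [Metric.mem_ball, dist_zero_right, Real.norm_eq_abs]
    linarith
  have h0 : (0 : ℝ) ∈ Metric.ball (0 : ℝ) (|x| + 1) := Metric.mem_ball_self (by positivity)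
  exact hasDerivAt_tsum_of_isPreconnected (g := fun j y => (p j).eval y)
    (g' := fun j y => (DP p j).eval y) (hD.2 (|x| + 1) hR) Metric.isOpen_ball
    (convex_ball (0 : ℝ) (|x| + 1)).isPreconnected
    (fun j y _ => Polynomial.hasDerivAt (p j) y)
    (fun j y hy => by
      rw [Real.norm_eq_abs]
      apply n_hasDeriv_bound _ (hD.1 j)
      rw [Metric.mem_ball, dist_zero_right, Real.norm_eq_abs] at hy
      exact hy.le) h0 (h.2 0 le_rfl) hx

end Pool.Agent.KS6_69.Ric.H662.Rz
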