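import Pool.Agent.KS6_69.Ric.H662.Rz.Defs
set_option autoImplicit false
namespace Pool.Agent.KS6_69.Ric.H662.Rz
open Set Filter Topology ComplexConjugate Finset

theorem uP_eval (K : ℕ → ℕ) (j : ℕ) (r : ℝ) :
    (uP K j).eval r = ∑ k ∈ range (K j), (r / 4 ^ j) ^ (k + 1) / ((k : ℝ) + 1) := by
  unfold uP
  rw [Polynomial.eval_finset_sum]
  refine Finset.sum_congr rfl fun k _ => ?_
  simp only [Polynomial.eval_mul, Polynomial.eval_C, Polynomial.eval_pow, Polynomial.eval_X]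
  rw [div_pow, ← pow_mul]
  field_simp

theorem pP_eval (K : ℕ → ℕ) (j : ℕ) (r : ℝ) :
    (pP K j).eval r = (r / 4 ^ j) ^ (2 * K j + 1) := by
  unfold pP
  simp only [Polynomial.eval_mul, Polynomial.eval_C, Polynomial.eval_pow, Polynomial.eval_X]
  rw [div_pow, ← pow_mul]
  field_simp

theorem geo_le (N : ℕ) {y : ℝ} (hy : 0 ≤ y) (hy2 : y ≤ 1 / 2) :
    ∑ k ∈ range N, y ^ (k + 1) ≤ 2 * y := by
  have h : ∑ k ∈ range N, y ^ (k + 1) = y * ∑ k ∈ range N, y ^ k := by
    rw [Finset.mul_sum]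
    exact Finset.sum_congr rfl fun k _ => by ring
  rw [h]
  have h2 : ∑ k ∈ range N, y ^ k ≤ 2 := by
    have h3 := geom_sum_mul_neg y N
    have h4 : 0 ≤ y ^ N := pow_nonneg hy N
    nlinarith [Finset.sum_nonneg (fun k (_ : k ∈ range N) => pow_nonneg hy k)]
  nlinarith

theorem summ_ev (K : ℕ → ℕ) {r : ℝ} (hr : 0 ≤ r) {f : ℕ → ℝ} (hf0 : ∀ j, 0 ≤ f j)
    (hf : ∀ j, r / 4 ^ j ≤ 1 / 2 → f j ≤ 2 * (r / 4 ^ j)) : Summable f := by
  have h1 : Summable (fun j : ℕ => 2 * (r / 4 ^ j)) := by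
    have : Summable (fun j : ℕ => ((1 / 4 : ℝ)) ^ j) :=
      summable_geometric_of_lt_one (by norm_num) (by norm_num)
    refine (this.mul_left (2 * r)).congr fun j => ?_
    rw [one_div, inv_pow]
    ring
  have h2 : Tendsto (fun j : ℕ => r / 4 ^ j) atTop (𝓝 0) := by
    have h3 : Tendsto (fun j : ℕ => (1 / 4 : ℝ) ^ j) atTop (𝓝 0) :=
      tendsto_pow_atTop_nhds_zero_of_lt_one (by norm_num) (by norm_num)
    have h4 := h3.const_mul r
    rw [mul_zero] at h4
    refine h4.congr fun j => ?_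
    rw [one_div, inv_pow]
    ring
  have h5 : ∀ᶠ j : ℕ in atTop, r / 4 ^ j ≤ 1 / 2 := h2.eventually_le_const (by norm_num)
  refine Summable.of_norm_bounded_eventually_nat h1 ?_
  filter_upwards [h5] with j hj
  rw [Real.norm_eq_abs, abs_of_nonneg (hf0 j)]
  exact hf j hj

theorem u_np (K : ℕ → ℕ) : NP (uP K) ∧ NP (pP K) := by
  refine ⟨⟨fun j n => ?_, fun r hr => ?_⟩, ⟨fun j n => ?_, fun r hr => ?_⟩⟩
  · unfold uP
    rw [Polynomial.finset_sum_coeff]
    refine Finset.sum_nonneg fun k _ => ?_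
    rw [Polynomial.coeff_C_mul, Polynomial.coeff_X_pow]
    split_ifs <;> positivity
  · refine summ_ev K hr (fun j => ?_) (fun j hj => ?_)
    · rw [uP_eval]
      exact Finset.sum_nonneg fun k _ => by positivity
    · rw [uP_eval]
      refine le_trans (Finset.sum_le_sum fun k _ => ?_) (geo_le (K j) (by positivity) hj)
      apply div_le_self (by positivity)
      have : (0 : ℝ) ≤ k := by positivity
      linarith
  · unfold pP
    rw [Polynomial.coeff_C_mul, Polynomial.coeff_X_pow]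
    split_ifs <;> positivity
  · refine summ_ev K hr (fun j => ?_) (fun j hj => ?_)
    · rw [pP_eval]; positivity
    · rw [pP_eval, pow_succ]
      have h0 : 0 ≤ r / 4 ^ j := by positivity
      have h1 : (r / 4 ^ j) ^ (2 * K j) ≤ 1 := pow_le_one₀ h0 (by linarith)
      nlinarith

end Pool.Agent.KS6_69.Ric.H662.Rz
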