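import Pool.Agent.KS6_69.Ric.H662.Rz.Defs
import Pool.Agent.KS6_69.Ric.H662.Rz.P_n_deriv
import Pool.Agent.KS6_69.Ric.H662.Rz.P_n_hasDeriv
import Pool.Agent.KS6_69.Ric.H662.Rz.P_u_np

set_option autoImplicit false
set_option linter.unusedVariables false

namespace Pool.Agent.KS6_69.Ric.H662.Rz
open Set Filter Topology ComplexConjugate Finset


theorem u_d1 (K : ℕ → ℕ) (x : ℝ) : x * deriv (u K) x = ∑' j, s K j x := by
  have h := n_hasDeriv (u_np K).1 x
  have h1 : deriv (u K) x = TS (DP (uP K)) x := h.deriv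
  rw [h1]
  unfold TS
  rw [← tsum_mul_left]
  refine tsum_congr fun j => ?_
  unfold DP uP s
  rw [Polynomial.derivative_sum, Polynomial.eval_finsetSum, Finset.mul_sum]
  refine Finset.sum_congr rfl fun k _ => ?_
  rw [Polynomial.derivative_C_mul, Polynomial.derivative_X_pow]
  simp only [Polynomial.eval_mul, Polynomial.eval_C, Polynomial.eval_pow, Polynomial.eval_X, Nat.add_sub_cancel]
  have hk : ((k : ℝ) + 1) ≠ 0 := by positivity
  push_cast
  rw [div_pow, ← pow_mul]
  have h4 : (4 : ℝ) ^ (j * (k + 1)) ≠ 0 := by positivity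
  field_simp
  ring

end Pool.Agent.KS6_69.Ric.H662.Rz
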