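import Pool.Agent.KS6_69.Ric.H662.Rz.Defs

set_option autoImplicit false
set_option linter.unusedVariables false

namespace Pool.Agent.KS6_69.Ric.H662.Rz
open Set Filter Topology ComplexConjugate Finset


theorem n_mono {p : ℕ → Polynomial ℝ} (h : NP p) {x y : ℝ} (hx : 0 ≤ x) (hxy : x ≤ y) :
    0 ≤ TS p x ∧ TS p x ≤ TS p y := by
  have hnn : ∀ j, 0 ≤ (p j).eval x := by
    intro j
    rw [Polynomial.eval_eq_sum_range]
    exact Finset.sum_nonneg (fun n _ => mul_nonneg (h.1 j n) (pow_nonneg hx n))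
  refine ⟨tsum_nonneg hnn, ?_⟩
  refine (h.2 x hx).tsum_le_tsum (fun j => ?_) (h.2 y (hx.trans hxy))
  rw [Polynomial.eval_eq_sum_range, Polynomial.eval_eq_sum_range]
  exact Finset.sum_le_sum (fun n _ => mul_le_mul_of_nonneg_left
    (pow_le_pow_left₀ hx hxy n) (h.1 j n))

end Pool.Agent.KS6_69.Ric.H662.Rz
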