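import Pool.Agent.KS6_69.Ric.H662.Rz.Defs
import Pool.Agent.KS6_69.Ric.H662.Rz.P_n_deriv
import Pool.Agent.KS6_69.Ric.H662.Rz.P_n_hasDeriv
import Pool.Agent.KS6_69.Ric.H662.Rz.P_n_mono
import Pool.Agent.KS6_69.Ric.H662.Rz.P_u_np
import Pool.Agent.KS6_69.Ric.H662.Rz.P_u_d1

set_option autoImplicit false
set_option linter.unusedVariables false

namespace Pool.Agent.KS6_69.Ric.H662.Rz
open Set Filter Topology ComplexConjugate Finset


theorem u_mono (K : ℕ → ℕ) {x y : ℝ} (hx : 0 ≤ x) (hxy : x ≤ y) :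
    deriv (u K) x ≤ deriv (u K) y ∧ lp (u K) x ≤ lp (u K) y ∧ S K x ≤ S K y := by
  have h0 := (u_np K).1
  have h1 := n_deriv h0
  have h2 := n_deriv h1
  have d1 : deriv (u K) = TS (DP (uP K)) := by
    funext z
    exact (n_hasDeriv h0 z).deriv
  have d2 : deriv (deriv (u K)) = TS (DP (DP (uP K))) := by
    rw [d1]
    funext z
    exact (n_hasDeriv h1 z).deriv
  have m1 := n_mono h1 hx hxy
  have m2 := n_mono h2 hx hxy
  have hy : 0 ≤ y := hx.trans hxy
  refine ⟨?_, ?_, ?_⟩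
  · rw [d1]
    exact m1.2
  · unfold lp
    rw [d2, d1]
    exact add_le_add m1.2 (mul_le_mul hxy m2.2 m2.1 hy)
  · unfold S
    rw [← u_d1, ← u_d1, d1]
    have h3 := mul_le_mul hxy m1.2 m1.1 hy
    linarith

end Pool.Agent.KS6_69.Ric.H662.Rz

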