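import Pool.Agent.KS6_69.Ric.H662.Rz.Defs
import Pool.Agent.KS6_69.Ric.H662.Rz.P_s_summ
import Pool.Agent.KS6_69.Ric.H662.Rz.P_u_d1
import Pool.Agent.KS6_69.Ric.H662.Rz.P_u_d2
import Pool.Agent.KS6_69.Ric.H662.Rz.P_u_mono
import Pool.Agent.KS6_69.Ric.H662.Rz.P_S_basic
import Pool.Agent.KS6_69.Ric.H662.Rz.P_t3

set_option autoImplicit false
set_option linter.unusedVariables false

namespace Pool.Agent.KS6_69.Ric.H662.Rz
open Set Filter Topology ComplexConjugate Finset


theorem S_growth {K : ℕ → ℕ} (hK : ∀ j, 1 ≤ K j) : ∃ C : ℝ, 1 ≤ C ∧ ∀ x : ℝ, 0 ≤ x →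
    (1 + x) * deriv (u K) x ≤ C * S K x ∧ (1 + x) * lp (u K) x ≤ C * S K x ^ 2 := by
  have hA0 : 0 ≤ |deriv (u K) 1| := abs_nonneg _
  have hB0 : 0 ≤ |lp (u K) 1| := abs_nonneg _
  refine ⟨6 + 2 * |deriv (u K) 1| + 2 * |lp (u K) 1|, by linarith, fun x hx => ?_⟩
  obtain ⟨hS1, _, hS3, _⟩ := S_basic hK hx
  have hS2 : 1 ≤ S K x ^ 2 := one_le_pow₀ hS1
  rcases le_or_gt x 1 with h1 | h1
  · obtain ⟨hm1, hm2, _⟩ := u_mono K hx h1
    have h2 := hm1.trans (le_abs_self _)
    have h3 := hm2.trans (le_abs_self _)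
    constructor
    · calc (1 + x) * deriv (u K) x ≤ (1 + x) * |deriv (u K) 1| :=
            mul_le_mul_of_nonneg_left h2 (by linarith)
        _ ≤ 2 * |deriv (u K) 1| := mul_le_mul_of_nonneg_right (by linarith) hA0
        _ ≤ (6 + 2 * |deriv (u K) 1| + 2 * |lp (u K) 1|) * 1 := by linarith
        _ ≤ (6 + 2 * |deriv (u K) 1| + 2 * |lp (u K) 1|) * S K x :=
            mul_le_mul_of_nonneg_left hS1 (by linarith)
    · calc (1 + x) * lp (u K) x ≤ (1 + x) * |lp (u K) 1| :=
            mul_le_mul_of_nonneg_left h3 (by linarith)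
        _ ≤ 2 * |lp (u K) 1| := mul_le_mul_of_nonneg_right (by linarith) hB0
        _ ≤ (6 + 2 * |deriv (u K) 1| + 2 * |lp (u K) 1|) * 1 := by linarith
        _ ≤ (6 + 2 * |deriv (u K) 1| + 2 * |lp (u K) 1|) * S K x ^ 2 :=
            mul_le_mul_of_nonneg_left hS2 (by linarith)
  · have hx0 : 0 < x := by linarith
    have hs : ∀ j, 0 ≤ s K j x := by
      intro j
      unfold s
      exact Finset.sum_nonneg (fun k _ => by positivity)
    have hds : ∀ j, 0 ≤ ds K j x := by
      intro j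
      unfold ds
      exact Finset.sum_nonneg (fun k _ => by positivity)
    obtain ⟨hsum, hdsum⟩ := s_summ K hx
    have hts : 0 ≤ ∑' j, s K j x := tsum_nonneg hs
    have htds : 0 ≤ ∑' j, ds K j x := tsum_nonneg hds
    have hSdef : S K x = 1 + ∑' j, s K j x := rfl
    have hu : 0 ≤ deriv (u K) x := by
      have := u_d1 K x
      by_contra hneg
      push Not at hneg
      nlinarith [mul_neg_of_pos_of_neg hx0 hneg]
    have hl : 0 ≤ lp (u K) x := by
      have := u_d2 K x
      by_contra hneg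
      push Not at hneg
      nlinarith [mul_neg_of_pos_of_neg hx0 hneg]
    constructor
    · calc (1 + x) * deriv (u K) x ≤ (2 * x) * deriv (u K) x :=
            mul_le_mul_of_nonneg_right (by linarith) hu
        _ = 2 * ∑' j, s K j x := by rw [← u_d1 K x]; ring
        _ ≤ 6 * S K x := by linarith
        _ ≤ (6 + 2 * |deriv (u K) 1| + 2 * |lp (u K) 1|) * S K x :=
            mul_le_mul_of_nonneg_right (by linarith) (by linarith)
    · have hle : ∑' j, ds K j x ≤ ∑' j, (2 + S K x) * s K j x := by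
        refine hdsum.tsum_le_tsum ?_ (hsum.mul_left _)
        intro j
        have h2 := t3 (K j) (y := x / 4 ^ j) (by positivity)
        have h3 : ds K j x ≤ 2 * s K j x + s K j x ^ 2 := h2
        have h4 : s K j x ^ 2 ≤ S K x * s K j x := by
          rw [sq]
          exact mul_le_mul_of_nonneg_right (by linarith [hS3 j]) (hs j)
        linarith
      rw [tsum_mul_left] at hle
      have h5 : (2 + S K x) * ∑' j, s K j x ≤ (3 * S K x) * S K x :=
        mul_le_mul (by linarith) (by linarith) hts (by linarith)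
      calc (1 + x) * lp (u K) x ≤ (2 * x) * lp (u K) x :=
            mul_le_mul_of_nonneg_right (by linarith) hl
        _ = 2 * ∑' j, ds K j x := by rw [← u_d2 K x]; ring
        _ ≤ 6 * S K x ^ 2 := by nlinarith
        _ ≤ (6 + 2 * |deriv (u K) 1| + 2 * |lp (u K) 1|) * S K x ^ 2 :=
            mul_le_mul_of_nonneg_right (by linarith) (by linarith)

end Pool.Agent.KS6_69.Ric.H662.Rz
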