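import Pool.Agent.KS6_69.Ric.H662.Rz.Defs

set_option autoImplicit false
set_option linter.unusedVariables false

namespace Pool.Agent.KS6_69.Ric.H662.Rz
open Set Filter Topology ComplexConjugate Finset


theorem oale_L1 (N : ℕ) (y : ℝ) : (∑ k ∈ range N, ∑ i ∈ range (k + 1), y ^ i) * (1 - y) =
    (N : ℝ) + 1 - ∑ i ∈ range (N + 1), y ^ i := by
  induction N with
  | zero => simp
  | succ N ih =>
    have h := geom_sum_mul_neg y (N + 1)
    rw [Finset.sum_range_succ _ N, add_mul, ih, h, Finset.sum_range_succ _ (N + 1)]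
    push_cast
    ring

theorem oale_L2 (N : ℕ) (y : ℝ) : (∑ i ∈ range (N + 1), y ^ i) * (∑ k ∈ range N, y ^ k) -
    ∑ k ∈ range N, ((k : ℝ) + 1) * y ^ k = y ^ N * ∑ k ∈ range N, ∑ i ∈ range (k + 1), y ^ i := by
  induction N with
  | zero => simp
  | succ N ih =>
    have h1 := oale_L1 N y
    obtain ⟨A, hA⟩ : ∃ A, A = ∑ i ∈ range (N + 1), y ^ i := ⟨_, rfl⟩
    obtain ⟨H, hH⟩ : ∃ H, H = ∑ i ∈ range N, y ^ i := ⟨_, rfl⟩
    have hAH : A = H + y ^ N := by rw [hA, hH, Finset.sum_range_succ]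
    rw [Finset.sum_range_succ _ (N + 1), Finset.sum_range_succ (fun k : ℕ => ((k : ℝ) + 1) * y ^ k) N,
      Finset.sum_range_succ (fun k : ℕ => ∑ i ∈ range (k + 1), y ^ i) N]
    rw [← hA]
    rw [← hA] at ih h1
    rw [← hH] at ih
    rw [pow_succ]
    linear_combination ih + y ^ N * h1 + A * hAH

theorem oale_deriv (N : ℕ) (y : ℝ) : HasDerivAt (fun y : ℝ => (1 + ∑ k ∈ range N, y ^ (k + 1)) *
    Real.exp (-∑ k ∈ range N, y ^ (k + 1) / ((k : ℝ) + 1)))
    ((∑ k ∈ range N, ((k : ℝ) + 1) * y ^ k - (1 + ∑ k ∈ range N, y ^ (k + 1)) * ∑ k ∈ range N, y ^ k) *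
      Real.exp (-∑ k ∈ range N, y ^ (k + 1) / ((k : ℝ) + 1))) y := by
  have h1 : HasDerivAt (fun y : ℝ => 1 + ∑ k ∈ range N, y ^ (k + 1))
      (∑ k ∈ range N, ((k : ℝ) + 1) * y ^ k) y := by
    apply HasDerivAt.const_add
    apply HasDerivAt.fun_sum
    intro k _
    have := hasDerivAt_pow (k + 1) y
    push_cast at this
    simpa using this
  have h2 : HasDerivAt (fun y : ℝ => -∑ k ∈ range N, y ^ (k + 1) / ((k : ℝ) + 1))
      (-∑ k ∈ range N, y ^ k) y := by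
    apply HasDerivAt.fun_neg
    apply HasDerivAt.fun_sum
    intro k _
    have := (hasDerivAt_pow (k + 1) y).div_const ((k : ℝ) + 1)
    have hk : ((k : ℝ) + 1) ≠ 0 := by positivity
    refine this.congr_deriv ?_
    push_cast
    rw [mul_div_cancel_left₀ _ hk]
  have h3 := h1.mul h2.exp
  refine h3.congr_deriv ?_
  ring

theorem one_add_le_exp (N : ℕ) {y : ℝ} (hy : 0 ≤ y) :
    1 + ∑ k ∈ range N, y ^ (k + 1) ≤ Real.exp (∑ k ∈ range N, y ^ (k + 1) / ((k : ℝ) + 1)) := by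
  obtain ⟨g, hg⟩ : ∃ g : ℝ → ℝ, g = fun y : ℝ => (1 + ∑ k ∈ range N, y ^ (k + 1)) *
    Real.exp (-∑ k ∈ range N, y ^ (k + 1) / ((k : ℝ) + 1)) := ⟨_, rfl⟩
  have hd : ∀ y, HasDerivAt g ((∑ k ∈ range N, ((k : ℝ) + 1) * y ^ k -
      (1 + ∑ k ∈ range N, y ^ (k + 1)) * ∑ k ∈ range N, y ^ k) *
      Real.exp (-∑ k ∈ range N, y ^ (k + 1) / ((k : ℝ) + 1))) y := by
    intro y
    rw [hg]
    exact oale_deriv N y
  have hanti : AntitoneOn g (Set.Ici 0) := by
    apply antitoneOn_of_deriv_nonpos (convex_Ici 0)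
    · exact fun x _ => (hd x).continuousAt.continuousWithinAt
    · exact fun x _ => (hd x).differentiableAt.differentiableWithinAt
    · intro x hx
      rw [interior_Ici] at hx
      have hx' : 0 < x := hx
      rw [(hd x).deriv]
      apply mul_nonpos_of_nonpos_of_nonneg _ (Real.exp_pos _).le
      have h1 := oale_L2 N x
      have h2 : (1 : ℝ) + ∑ k ∈ range N, x ^ (k + 1) = ∑ i ∈ range (N + 1), x ^ i := by
        rw [Finset.sum_range_succ', pow_zero, add_comm]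
      rw [h2]
      have h3 : 0 ≤ x ^ N * ∑ k ∈ range N, ∑ i ∈ range (k + 1), x ^ i :=
        mul_nonneg (pow_nonneg hx'.le N) (Finset.sum_nonneg (fun k _ => Finset.sum_nonneg (fun i _ => pow_nonneg hx'.le i)))
      linarith
  have h0 : g 0 = 1 := by
    rw [hg]
    simp
  have h1 := hanti (Set.self_mem_Ici) (show y ∈ Set.Ici (0 : ℝ) from hy) hy
  rw [h0, hg] at h1
  have h2 : (1 + ∑ k ∈ range N, y ^ (k + 1)) *
    Real.exp (-∑ k ∈ range N, y ^ (k + 1) / ((k : ℝ) + 1)) ≤ 1 := h1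
  rw [Real.exp_neg, ← div_eq_mul_inv, div_le_one (Real.exp_pos _)] at h2
  exact h2

end Pool.Agent.KS6_69.Ric.H662.Rz
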