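import Pool.Agent.KS6_69.Ric.H662.Rz.Defs

set_option autoImplicit false
set_option linter.unusedVariables false

namespace Pool.Agent.KS6_69.Ric.H662.Rz
open Set Filter Topology ComplexConjugate Finset


theorem tele {x : ℝ} (hx : 0 ≤ x) (N : ℕ) :
    ∑ j ∈ range N, (x / 4 ^ j) / (1 + x / 4 ^ j) ^ 2 ≤ 4 / 3 := by
  have step : ∀ a : ℝ, 0 ≤ a → a / (1 + a) ^ 2 ≤ 4 / 3 * (1 / (1 + a / 4) - 1 / (1 + a)) := by
    intro a ha
    have h1 : (0 : ℝ) < 1 + a := by linarith
    have h2 : (0 : ℝ) < 1 + a / 4 := by linarith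
    have e : 4 / 3 * (1 / (1 + a / 4) - 1 / (1 + a)) = a / ((1 + a) * (1 + a / 4)) := by
      field_simp
      ring
    rw [e]
    apply div_le_div_of_nonneg_left ha (mul_pos h1 h2)
    nlinarith
  have key : ∀ N : ℕ, ∑ j ∈ range N, (x / 4 ^ j) / (1 + x / 4 ^ j) ^ 2 ≤
      4 / 3 * (1 / (1 + x / 4 ^ N) - 1 / (1 + x)) := by
    intro N
    induction N with
    | zero => simp
    | succ n ih =>
      rw [Finset.sum_range_succ]
      have ha : 0 ≤ x / 4 ^ n := by positivity
      have h := step (x / 4 ^ n) ha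
      have e : x / 4 ^ n / 4 = x / 4 ^ (n + 1) := by
        rw [pow_succ, div_div]
      rw [e] at h
      linarith
  refine (key N).trans ?_
  have h1 : 1 / (1 + x / 4 ^ N) ≤ 1 := by
    rw [div_le_one (by positivity)]
    have : 0 ≤ x / 4 ^ N := by positivity
    linarith
  have h2 : 0 ≤ 1 / (1 + x) := by positivity
  linarith

end Pool.Agent.KS6_69.Ric.H662.Rz
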