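import Pool.Agent.KS6_69.Ric.H662.Rz.Defs
import Pool.Agent.KS6_69.Ric.H662.Rz.P_n_deriv
import Pool.Agent.KS6_69.Ric.H662.Rz.P_n_hasDeriv
import Pool.Agent.KS6_69.Ric.H662.Rz.P_n_mono
import Pool.Agent.KS6_69.Ric.H662.Rz.P_u_np

set_option autoImplicit false
set_option linter.unusedVariables false

namespace Pool.Agent.KS6_69.Ric.H662.Rz
open Set Filter Topology ComplexConjugate Finset


theorem u_pos_eval {p : Polynomial ℝ} (hp : ∀ n, 0 ≤ p.coeff n) {x : ℝ} (hx : 0 ≤ x) :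
    0 ≤ p.eval x := by
  rw [Polynomial.eval_eq_sum_range]
  exact Finset.sum_nonneg fun i _ => mul_nonneg (hp i) (pow_nonneg hx i)

theorem u_pos_term {K : ℕ → ℕ} (hK : 1 ≤ K 0) {x : ℝ} (hx : 0 ≤ x) :
    1 ≤ (DP (uP K) 0).eval x := by
  have h1 : (DP (uP K) 0).eval x = ∑ k ∈ range (K 0), x ^ k := by
    unfold DP uP
    rw [Polynomial.derivative_sum, Polynomial.eval_finsetSum]
    apply Finset.sum_congr rfl
    intro k _
    have hk : ((k : ℝ) + 1) ≠ 0 := by positivity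
    simp only [zero_mul, pow_zero, mul_one, Polynomial.derivative_mul, Polynomial.derivative_C,
      zero_mul, zero_add, Polynomial.derivative_X_pow, Polynomial.eval_mul, Polynomial.eval_C,
      Polynomial.eval_pow, Polynomial.eval_X, add_tsub_cancel_right, Polynomial.eval_natCast]
    push_cast
    field_simp
  rw [h1]
  have h2 : (0 : ℕ) ∈ range (K 0) := Finset.mem_range.2 hK
  have h3 := Finset.single_le_sum (f := fun k => x ^ k) (fun i _ => pow_nonneg hx i) h2
  simpa using h3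

theorem u_pos {K : ℕ → ℕ} (hK : ∀ j, 1 ≤ K j) {x : ℝ} (hx : 0 ≤ x) :
    0 ≤ u K x ∧ 0 ≤ deriv (u K) x ∧ 1 ≤ lp (u K) x := by
  have h0 := (u_np K).1
  have h1 := n_deriv h0
  have h2 := n_deriv h1
  have d1 : deriv (u K) = TS (DP (uP K)) := by
    funext y
    exact (n_hasDeriv h0 y).deriv
  have d2 : deriv (deriv (u K)) = TS (DP (DP (uP K))) := by
    rw [d1]
    funext y
    exact (n_hasDeriv h1 y).deriv
  have e1 : 1 ≤ TS (DP (uP K)) x := by
    refine (u_pos_term (hK 0) hx).trans ?_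
    exact (h1.2 x hx).le_tsum 0 (fun j _ => u_pos_eval (h1.1 j) hx)
  refine ⟨(n_mono h0 hx le_rfl).1, ?_, ?_⟩
  · rw [d1]
    exact (n_mono h1 hx le_rfl).1
  · unfold lp
    rw [d2, d1]
    have := mul_nonneg hx (n_mono h2 hx le_rfl).1
    linarith

end Pool.Agent.KS6_69.Ric.H662.Rz
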