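import Pool.Agent.KS6_69.Ric.H662.Rz.Defs
import Pool.Agent.KS6_69.Ric.H662.Rz.P_n_deriv
import Pool.Agent.KS6_69.Ric.H662.Rz.P_n_hasDeriv

set_option autoImplicit false
set_option linter.unusedVariables false

namespace Pool.Agent.KS6_69.Ric.H662.Rz
open Set Filter Topology ComplexConjugate Finset


theorem n_smooth_aux (n : ℕ) : ∀ {p : ℕ → Polynomial ℝ}, NP p → ContDiff ℝ (n : WithTop ℕ∞) (TS p) := by
  induction n with
  | zero =>
    intro p h
    have : Continuous (TS p) :=
      continuous_iff_continuousAt.2 (fun x => (n_hasDeriv h x).continuousAt)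
    exact_mod_cast contDiff_zero.2 this
  | succ n ih =>
    intro p h
    have hd : deriv (TS p) = TS (DP p) := funext (fun x => (n_hasDeriv h x).deriv)
    have hdiff : Differentiable ℝ (TS p) := fun x => (n_hasDeriv h x).differentiableAt
    have key : ContDiff ℝ ((n : WithTop ℕ∞) + 1) (TS p) := by
      rw [contDiff_succ_iff_deriv]
      refine ⟨hdiff, fun hn => ?_, ?_⟩
      · exact absurd hn (by simp)
      · rw [hd]; exact ih (n_deriv h)
    exact_mod_cast key

theorem n_smooth {p : ℕ → Polynomial ℝ} (h : NP p) :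
    ContDiff ℝ ((⊤ : ℕ∞) : WithTop ℕ∞) (TS p) := by
  rw [contDiff_infty]
  intro n
  exact n_smooth_aux n h

end Pool.Agent.KS6_69.Ric.H662.Rz
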