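import Pool.Agent.KS6_69.Ric.H662.Rz.Defs
import Pool.Agent.KS6_69.Ric.H662.Rz.P_w_unique
import Pool.Agent.KS6_69.Ric.H662.Rz.P_w_smooth
import Pool.Agent.KS6_69.Ric.H662.Rz.P_w_smR

set_option autoImplicit false
set_option linter.unusedVariables false

namespace Pool.Agent.KS6_69.Ric.H662.Rz
open Set Filter Topology ComplexConjugate Finset


theorem wc_A (G : ℝ → ℝ) (hG : Differentiable ℝ G) {v : ℂ → ℂ} (hv : Differentiable ℂ v) (z : ℂ) :
    ∃ L : ℂ →L[ℝ] ℂ, HasFDerivAt (fun x => ((G (‖v x‖ ^ 2) : ℝ) : ℂ)) L z ∧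
      ∀ w, L w = ((deriv G (‖v z‖ ^ 2) : ℝ) : ℂ) * conj (v z) * deriv v z * w +
        ((deriv G (‖v z‖ ^ 2) : ℝ) : ℂ) * v z * conj (deriv v z) * conj w := by
  have h1 : HasFDerivAt v (deriv v z • (1 : ℂ →L[ℝ] ℂ)) z :=
    (hv z).hasDerivAt.complexToReal_fderiv
  have h2 : HasFDerivAt (fun x => ‖v x‖ ^ 2)
      (2 • (innerSL ℝ (v z)).comp (deriv v z • (1 : ℂ →L[ℝ] ℂ))) z := h1.norm_sq
  have h3 := (hG (‖v z‖ ^ 2)).hasDerivAt.comp_hasFDerivAt z h2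
  have h4 := Complex.ofRealCLM.hasFDerivAt.comp z h3
  refine ⟨_, h4, fun w => ?_⟩
  have h5 : (inner ℝ (v z) (deriv v z * w) : ℝ) = (conj (v z) * (deriv v z * w)).re := by
    rw [Complex.inner, mul_comm]
  simp only [ContinuousLinearMap.comp_apply, ContinuousLinearMap.smul_apply,
    ContinuousLinearMap.one_apply, innerSL_apply_apply, smul_eq_mul, Complex.ofRealCLM_apply,
    nsmul_eq_mul]
  rw [h5]
  apply Complex.ext
  · simp
    ring
  · simp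
    ring

theorem wc_dz {F : ℝ → ℝ} (hF : ContDiff ℝ ((⊤ : ℕ∞) : WithTop ℕ∞) F) {v : ℂ → ℂ}
    (hv : Differentiable ℂ v) (z : ℂ) :
    dz (cR (fun x => F (‖v x‖ ^ 2))) z =
      ((deriv F (‖v z‖ ^ 2) : ℝ) : ℂ) * conj (v z) * deriv v z := by
  obtain ⟨L, h1, h2⟩ := wc_A F (hF.differentiable (by simp)) hv z
  exact (w_unique (f := cR (fun x => F (‖v x‖ ^ 2))) h1 h2).1

theorem wc_norm (a : ℂ) : ((‖a‖ ^ 2 : ℝ) : ℂ) = conj a * a := by
  rw [Complex.conj_mul']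
  push_cast
  rfl

theorem w_comp {F : ℝ → ℝ} (hF : ContDiff ℝ ((⊤ : ℕ∞) : WithTop ℕ∞) F) {v : ℂ → ℂ}
    (hv : Differentiable ℂ v) (z : ℂ) :
    dz (cR (fun x => F (‖v x‖ ^ 2))) z = ((deriv F (‖v z‖ ^ 2) : ℝ) : ℂ) * conj (v z) * deriv v z ∧
      th (fun x => F (‖v x‖ ^ 2)) z = lp F (‖v z‖ ^ 2) * ‖deriv v z‖ ^ 2 ∧
      SmR (fun x => F (‖v x‖ ^ 2)) := by
  refine ⟨wc_dz hF hv z, ?_, ?_⟩
  · have hfun : dz (cR (fun x => F (‖v x‖ ^ 2))) =
        fun z => ((deriv F (‖v z‖ ^ 2) : ℝ) : ℂ) * conj (v z) * deriv v z :=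
      funext fun z => wc_dz hF hv z
    have hF2 : ContDiff ℝ 2 F := by exact_mod_cast contDiff_infty.mp hF 2
    have hF1 : Differentiable ℝ (deriv F) := hF2.differentiable_deriv_two
    obtain ⟨L, h1, h2⟩ := wc_A (deriv F) hF1 hv z
    have hd : Differentiable ℂ (deriv v) := hv.contDiff.differentiable_deriv_two
    have h3 : HasFDerivAt (deriv v) (deriv (deriv v) z • (1 : ℂ →L[ℝ] ℂ)) z :=
      (hd z).hasDerivAt.complexToReal_fderiv
    have h4 : HasFDerivAt v (deriv v z • (1 : ℂ →L[ℝ] ℂ)) z :=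
      (hv z).hasDerivAt.complexToReal_fderiv
    have h5 : HasFDerivAt (fun x => conj (v x))
        ((Complex.conjCLE : ℂ →L[ℝ] ℂ).comp (deriv v z • (1 : ℂ →L[ℝ] ℂ))) z :=
      (Complex.conjCLE : ℂ →L[ℝ] ℂ).hasFDerivAt.comp z h4
    have h6 := (h1.mul h5).mul h3
    have h7 := w_unique (f := fun z => ((deriv F (‖v z‖ ^ 2) : ℝ) : ℂ) * conj (v z) * deriv v z)
      (a := ((deriv (deriv F) (‖v z‖ ^ 2) : ℝ) : ℂ) * conj (v z) ^ 2 * deriv v z ^ 2 +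
        ((deriv F (‖v z‖ ^ 2) : ℝ) : ℂ) * conj (v z) * deriv (deriv v) z)
      (b := ((lp F (‖v z‖ ^ 2) * ‖deriv v z‖ ^ 2 : ℝ) : ℂ)) h6 (by
        intro w
        have e1 : ((lp F (‖v z‖ ^ 2) * ‖deriv v z‖ ^ 2 : ℝ) : ℂ) =
            (((deriv F (‖v z‖ ^ 2) : ℝ) : ℂ) + conj (v z) * v z *
              ((deriv (deriv F) (‖v z‖ ^ 2) : ℝ) : ℂ)) * (conj (deriv v z) * deriv v z) := by
          rw [← wc_norm, ← wc_norm]
          unfold lp
          push_cast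
          ring
        rw [e1]
        simp only [_root_.add_apply, _root_.smul_apply, ContinuousLinearMap.comp_apply,
          ContinuousLinearMap.one_apply, smul_eq_mul, h2, ContinuousLinearEquiv.coe_coe,
          Complex.conjCLE_apply, map_mul, Pi.mul_apply]
        ring)
    unfold th
    rw [hfun, h7.2, Complex.ofReal_re]
  · unfold SmR
    exact hF.comp ((hv.contDiff.restrict_scalars ℝ).norm_sq ℝ)

end Pool.Agent.KS6_69.Ric.H662.Rz
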