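import Pool.Agent.KS6_69.Ric.H662.Rz.Defs
import Pool.Agent.KS6_69.Ric.H662.Rz.P_n_deriv
import Pool.Agent.KS6_69.Ric.H662.Rz.P_n_hasDeriv
import Pool.Agent.KS6_69.Ric.H662.Rz.P_n_smooth
import Pool.Agent.KS6_69.Ric.H662.Rz.P_u_np

set_option autoImplicit false
set_option linter.unusedVariables false

namespace Pool.Agent.KS6_69.Ric.H662.Rz
open Set Filter Topology ComplexConjugate Finset


theorem NP_summable {p : ℕ → Polynomial ℝ} (h : NP p) (x : ℝ) :
    Summable (fun j => (p j).eval x) := by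
  refine Summable.of_norm_bounded (g := fun j => (p j).eval |x|) (h.2 |x| (abs_nonneg x)) ?_
  intro j
  rw [Real.norm_eq_abs, Polynomial.eval_eq_sum_range, Polynomial.eval_eq_sum_range]
  refine (Finset.abs_sum_le_sum_abs _ _).trans ?_
  refine Finset.sum_le_sum fun n _ => ?_
  rw [abs_mul, abs_pow, abs_of_nonneg (h.1 j n)]

theorem lp_TS {p : ℕ → Polynomial ℝ} (h : NP p) :
    NP (fun j => Polynomial.derivative (p j) +
      Polynomial.X * Polynomial.derivative (Polynomial.derivative (p j))) ∧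
    deriv (TS p) = TS (DP p) ∧
    lp (TS p) = TS (fun j => Polynomial.derivative (p j) +
      Polynomial.X * Polynomial.derivative (Polynomial.derivative (p j))) := by
  have h1 := n_deriv h
  have h2 := n_deriv h1
  have d1 : deriv (TS p) = TS (DP p) := funext fun x => (n_hasDeriv h x).deriv
  have d2 : deriv (TS (DP p)) = TS (DP (DP p)) := funext fun x => (n_hasDeriv h1 x).deriv
  refine ⟨⟨?_, ?_⟩, d1, ?_⟩
  · intro j n
    rw [Polynomial.coeff_add]
    refine add_nonneg (h1.1 j n) ?_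
    cases n with
    | zero => rw [Polynomial.coeff_X_mul_zero]
    | succ n => rw [Polynomial.coeff_X_mul]; exact h2.1 j n
  · intro r hr
    have := (h1.2 r hr).add ((h2.2 r hr).mul_left r)
    refine this.congr ?_
    intro j
    simp [DP, Polynomial.eval_add, Polynomial.eval_mul]
  · funext x
    unfold lp
    rw [d1, d2]
    have s1 := NP_summable h1 x
    have s2 := (NP_summable h2 x).mul_left x
    unfold TS
    rw [← tsum_mul_left, ← s1.tsum_add s2]
    refine tsum_congr fun j => ?_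
    simp [DP, Polynomial.eval_add, Polynomial.eval_mul]

theorem lp_mono (c : ℝ) (n : ℕ) :
    Polynomial.derivative (Polynomial.C c * Polynomial.X ^ n) +
      Polynomial.X * Polynomial.derivative (Polynomial.derivative
        (Polynomial.C c * Polynomial.X ^ n)) =
      Polynomial.C (c * (n:ℝ) ^ 2) * Polynomial.X ^ (n - 1) := by
  rw [Polynomial.derivative_C_mul_X_pow, Polynomial.derivative_C_mul_X_pow]
  rcases n with _ | _ | m
  · simp
  · simp
  · have e1 : m + 1 + 1 - 1 = m + 1 := rfl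
    have e2 : m + 1 - 1 = m := rfl
    rw [e1, e2]
    have e3 : Polynomial.X * (Polynomial.C (c * ((m + 1 + 1 : ℕ) : ℝ) * ((m + 1 : ℕ) : ℝ)) *
        Polynomial.X ^ m) = Polynomial.C (c * ((m + 1 + 1 : ℕ) : ℝ) * ((m + 1 : ℕ) : ℝ)) *
        Polynomial.X ^ (m + 1) := by ring
    rw [e3, ← add_mul, ← Polynomial.C_add]
    congr 2
    push_cast
    ring

theorem P_lp (K : ℕ → ℕ) (x : ℝ) :
    ContDiff ℝ ((⊤ : ℕ∞) : WithTop ℕ∞) (lp (P K)) ∧
    lp (P K) x = ∑' j, (2 * (K j : ℝ) + 1) ^ 2 * x ^ (2 * K j) / 4 ^ (j * (2 * K j + 1)) ∧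
    deriv (lp (P K)) x = ∑' j, (2 * (K j : ℝ) + 1) ^ 2 * (2 * (K j : ℝ)) * x ^ (2 * K j - 1)
      / 4 ^ (j * (2 * K j + 1)) ∧
    lp (lp (P K)) x = ∑' j, (2 * (K j : ℝ) + 1) ^ 2 * (2 * (K j : ℝ)) ^ 2 * x ^ (2 * K j - 1)
      / 4 ^ (j * (2 * K j + 1)) := by
  have hP := (u_np K).2
  obtain ⟨a1, a2, a3⟩ := lp_TS hP
  have e1 : (fun j => Polynomial.derivative (pP K j) +
      Polynomial.X * Polynomial.derivative (Polynomial.derivative (pP K j))) =
      fun j => Polynomial.C (1 / 4 ^ (j * (2 * K j + 1)) * ((2 * K j + 1 : ℕ) : ℝ) ^ 2) *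
        Polynomial.X ^ (2 * K j) := by
    funext j
    unfold pP
    rw [lp_mono]
    rfl
  rw [e1] at a1 a3
  obtain ⟨b1, b2, b3⟩ := lp_TS a1
  have e2 : (fun j => Polynomial.derivative (Polynomial.C (1 / 4 ^ (j * (2 * K j + 1)) *
      ((2 * K j + 1 : ℕ) : ℝ) ^ 2) * Polynomial.X ^ (2 * K j)) +
      Polynomial.X * Polynomial.derivative (Polynomial.derivative (Polynomial.C
      (1 / 4 ^ (j * (2 * K j + 1)) * ((2 * K j + 1 : ℕ) : ℝ) ^ 2) *
        Polynomial.X ^ (2 * K j)))) =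
      fun j => Polynomial.C (1 / 4 ^ (j * (2 * K j + 1)) * ((2 * K j + 1 : ℕ) : ℝ) ^ 2 *
        ((2 * K j : ℕ) : ℝ) ^ 2) * Polynomial.X ^ (2 * K j - 1) := by
    funext j
    rw [lp_mono]
  rw [e2] at b3
  have a4 : lp (P K) = TS fun j => Polynomial.C (1 / 4 ^ (j * (2 * K j + 1)) *
      ((2 * K j + 1 : ℕ) : ℝ) ^ 2) * Polynomial.X ^ (2 * K j) := a3
  refine ⟨?_, ?_, ?_, ?_⟩
  · rw [a4]
    exact n_smooth a1
  · rw [a4]
    unfold TS
    refine tsum_congr fun j => ?_
    simp only [Polynomial.eval_mul, Polynomial.eval_C, Polynomial.eval_pow, Polynomial.eval_X]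
    push_cast
    ring
  · rw [a4, b2]
    unfold TS DP
    refine tsum_congr fun j => ?_
    rw [Polynomial.derivative_C_mul_X_pow]
    simp only [Polynomial.eval_mul, Polynomial.eval_C, Polynomial.eval_pow, Polynomial.eval_X]
    push_cast
    ring
  · rw [a4, b3]
    unfold TS
    refine tsum_congr fun j => ?_
    simp only [Polynomial.eval_mul, Polynomial.eval_C, Polynomial.eval_pow, Polynomial.eval_X]
    push_cast
    ring

end Pool.Agent.KS6_69.Ric.H662.Rz
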