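import Pool.Agent.KS6_69.Ric.H662.Rz.Defs
import Pool.Agent.KS6_69.Ric.H662.Rz.P_w_smooth
import Pool.Agent.KS6_69.Ric.H662.Rz.P_w_smR

set_option autoImplicit false
set_option linter.unusedVariables false

namespace Pool.Agent.KS6_69.Ric.H662.Rz
open Set Filter Topology ComplexConjugate Finset


theorem dz_add' {f g : ℂ → ℂ} (z : ℂ) (hf : DifferentiableAt ℝ f z)
    (hg : DifferentiableAt ℝ g z) : dz (fun x => f x + g x) z = dz f z + dz g z := by
  unfold dz
  rw [fderiv_fun_add hf hg]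
  simp only [ContinuousLinearMap.add_apply]
  ring

theorem dzb_add' {f g : ℂ → ℂ} (z : ℂ) (hf : DifferentiableAt ℝ f z)
    (hg : DifferentiableAt ℝ g z) : dzb (fun x => f x + g x) z = dzb f z + dzb g z := by
  unfold dzb
  rw [fderiv_fun_add hf hg]
  simp only [ContinuousLinearMap.add_apply]
  ring

theorem Sm_diff {f : ℂ → ℂ} (h : Sm f) (z : ℂ) : DifferentiableAt ℝ f z :=
  (ContDiff.differentiable h (by simp)).differentiableAt

theorem w_add {φ χ : ℂ → ℝ} (h : SmR φ) (h' : SmR χ) (z : ℂ) :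
    dz (cR (fun x => φ x + χ x)) z = dz (cR φ) z + dz (cR χ) z ∧
      th (fun x => φ x + χ x) z = th φ z + th χ z := by
  have e : cR (fun x => φ x + χ x) = fun x => cR φ x + cR χ x := by
    funext x
    simp [cR]
  have h1 : ∀ z, dz (cR (fun x => φ x + χ x)) z = dz (cR φ) z + dz (cR χ) z := by
    intro z
    rw [e]
    exact dz_add' z (Sm_diff (w_smR h).1 z) (Sm_diff (w_smR h').1 z)
  refine ⟨h1 z, ?_⟩
  unfold th
  have e2 : dz (cR (fun x => φ x + χ x)) = fun z => dz (cR φ) z + dz (cR χ) z := funext h1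
  rw [e2, dzb_add' z (Sm_diff (w_smooth (w_smR h).1).1 z) (Sm_diff (w_smooth (w_smR h').1).1 z),
    Complex.add_re]

end Pool.Agent.KS6_69.Ric.H662.Rz
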