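import Pool.Agent.KS6_69.Ric.H662.Rz.Defs

set_option autoImplicit false
set_option linter.unusedVariables false

namespace Pool.Agent.KS6_69.Ric.H662.Rz
open Set Filter Topology ComplexConjugate Finset


theorem j23113_dz {f g : ℂ → ℂ} {z : ℂ} (h : f =ᶠ[𝓝 z] g) : dz f z = dz g z := by
  unfold dz
  rw [h.fderiv_eq]

theorem j23113_dzb {f g : ℂ → ℂ} {z : ℂ} (h : f =ᶠ[𝓝 z] g) : dzb f z = dzb g z := by
  unfold dzb
  rw [h.fderiv_eq]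

theorem j23113_cR {φ χ : ℂ → ℝ} {z : ℂ} (h : φ =ᶠ[𝓝 z] χ) : cR φ =ᶠ[𝓝 z] cR χ := by
  filter_upwards [h] with w hw
  simp only [cR, hw]

theorem j23113_th {φ χ : ℂ → ℝ} {z : ℂ} (h : φ =ᶠ[𝓝 z] χ) : th φ z = th χ z := by
  have h1 : dz (cR φ) =ᶠ[𝓝 z] dz (cR χ) := by
    filter_upwards [(j23113_cR h).eventuallyEq_nhds] with w hw
    exact j23113_dz hw
  unfold th
  rw [j23113_dzb h1]

theorem w_congr {φ χ : ℂ → ℝ} {z : ℂ} (h : φ =ᶠ[𝓝 z] χ) :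
    dz (cR φ) z = dz (cR χ) z ∧ th φ z = th χ z ∧ th φ =ᶠ[𝓝 z] th χ := by
  refine ⟨j23113_dz (j23113_cR h), j23113_th h, ?_⟩
  filter_upwards [h.eventuallyEq_nhds] with w hw
  exact j23113_th hw

end Pool.Agent.KS6_69.Ric.H662.Rz
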