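import Pool.Agent.KS6_69.Ric.H662.Rz.Defs
import Pool.Agent.KS6_69.Ric.H662.Rz.P_x_smooth
import Pool.Agent.KS6_69.Ric.H662.Rz.P_x_loc

set_option autoImplicit false
set_option linter.unusedVariables false

namespace Pool.Agent.KS6_69.Ric.H662.Rz
open Set Filter Topology ComplexConjugate Finset


theorem x_Xi_smooth (Q : QD) {K : ℕ → ℕ} (hK : ∀ j, 2 ≤ K j) : SmR (Xi Q K) := by
  unfold SmR
  rw [contDiff_iff_contDiffAt]
  intro z
  obtain ⟨J, hJ⟩ : ∃ J : ℕ, ‖z‖ / (7 / 10) < 2 ^ J :=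
    pow_unbounded_of_one_lt _ (by norm_num)
  have hz : ‖z‖ < 2 ^ J * (7 / 10) := by
    rwa [div_lt_iff₀ (by norm_num)] at hJ
  refine ContDiffAt.congr_of_eventuallyEq ?_ (x_loc Q hK hz)
  apply ContDiff.contDiffAt
  apply ContDiff.sum
  intro j _
  exact contDiff_const.mul (x_smooth Q K j)

end Pool.Agent.KS6_69.Ric.H662.Rz
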