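import Pool.Agent.KS6_69.Ric.H662.Rz.Defs
import Pool.Agent.KS6_69.Ric.H662.Rz.P_w_smR
import Pool.Agent.KS6_69.Ric.H662.Rz.P_w_add
import Pool.Agent.KS6_69.Ric.H662.Rz.P_w_comp
import Pool.Agent.KS6_69.Ric.H662.Rz.P_S_deriv
import Pool.Agent.KS6_69.Ric.H662.Rz.P_P_lp
import Pool.Agent.KS6_69.Ric.H662.Rz.P_x_Xi_smooth

set_option autoImplicit false
set_option linter.unusedVariables false

namespace Pool.Agent.KS6_69.Ric.H662.Rz
open Set Filter Topology ComplexConjugate Finset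


theorem pf_comp {F : ℝ → ℝ} (hF : ContDiff ℝ ((⊤ : ℕ∞) : WithTop ℕ∞) F) (z : ℂ) :
    dz (cR (fun x => F (‖x‖ ^ 2))) z = ((deriv F (‖z‖ ^ 2) : ℝ) : ℂ) * conj z ∧
      th (fun x => F (‖x‖ ^ 2)) z = lp F (‖z‖ ^ 2) ∧
      SmR (fun x => F (‖x‖ ^ 2)) := by
  have h := w_comp hF (v := fun x => x) differentiable_id z
  have h1 : deriv (fun x : ℂ => x) z = 1 := by
    simp
  rw [h1, mul_one, norm_one, one_pow, mul_one] at h
  exact h

theorem pf_lp_id_add {G : ℝ → ℝ} (hG : ContDiff ℝ ((⊤ : ℕ∞) : WithTop ℕ∞) G) :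
    lp (fun x => x + G x) = fun x => 1 + lp G x := by
  have hd : Differentiable ℝ G := hG.differentiable (by simp)
  have h1 : deriv (fun x => x + G x) = fun x => 1 + deriv G x := by
    funext x
    rw [deriv_fun_add differentiableAt_fun_id (hd x)]
    simp
  funext x
  unfold lp
  rw [h1]
  rw [deriv_const_add]
  ring

theorem pf_lp_const_add {G : ℝ → ℝ} :
    lp (fun x => 1 + G x) = lp G := by
  have h1 : deriv (fun x => 1 + G x) = deriv G := by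
    funext x
    rw [deriv_const_add]
  funext x
  unfold lp
  rw [h1]

theorem phi_facts (Q : QD) {K : ℕ → ℕ} (hK : ∀ j, 2 ≤ K j) (z : ℂ) :
    SmR (phi Q K) ∧
    th (phi Q K) z = 1 + lp (P K) (‖z‖ ^ 2) + th (Xi Q K) z ∧
    dz (cR (th (phi Q K))) z = ((deriv (lp (P K)) (‖z‖ ^ 2) : ℝ) : ℂ) * conj z
      + dz (cR (th (Xi Q K))) z ∧
    th (th (phi Q K)) z = lp (lp (P K)) (‖z‖ ^ 2) + th (th (Xi Q K)) z := by
  obtain ⟨-, hP, -, -⟩ := S_deriv K
  obtain ⟨hlP, -, -, -⟩ := P_lp K 0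
  have hX := x_Xi_smooth Q hK
  have hF1 : ContDiff ℝ ((⊤ : ℕ∞) : WithTop ℕ∞) (fun x => x + P K x) := contDiff_id.add hP
  have hF2 : ContDiff ℝ ((⊤ : ℕ∞) : WithTop ℕ∞) (fun x => 1 + lp (P K) x) :=
    contDiff_const.add hlP
  have e1 : phi Q K = fun z => (fun x : ℂ => (fun x => x + P K x) (‖x‖ ^ 2)) z + Xi Q K z := rfl
  have hA := (pf_comp hF1 z).2.2
  have e2 : th (phi Q K) = fun z => (fun x : ℂ => (fun x => 1 + lp (P K) x) (‖x‖ ^ 2)) z
      + th (Xi Q K) z := by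
    funext w
    rw [e1, (w_add hA hX w).2, (pf_comp hF1 w).2.1, pf_lp_id_add hP]
  have hB := (pf_comp hF2 z).2.2
  have hTX := (w_smR hX).2
  refine ⟨?_, ?_, ?_, ?_⟩
  · rw [e1]
    exact ContDiff.add hA hX
  · rw [e2]
  · rw [e2, (w_add hB hTX z).1, (pf_comp hF2 z).1]
    congr 3
    rw [deriv_const_add]
  · rw [e2, (w_add hB hTX z).2, (pf_comp hF2 z).2.1, pf_lp_const_add]

end Pool.Agent.KS6_69.Ric.H662.Rz
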