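import Pool.Agent.KS6_69.Ric.H662.Rz.Defs
import Pool.Agent.KS6_69.Ric.H662.Rz.P_w_smooth
import Pool.Agent.KS6_69.Ric.H662.Rz.P_w_smR

set_option autoImplicit false
set_option linter.unusedVariables false

namespace Pool.Agent.KS6_69.Ric.H662.Rz
open Set Filter Topology ComplexConjugate Finset


theorem h170_wsm {g : ℂ → ℂ} (hg : Sm g) (c : ℂ) (z : ℂ) :
    dz (fun w => c * g w) z = c * dz g z ∧ dzb (fun w => c * g w) z = c * dzb g z := by
  have hd : DifferentiableAt ℝ g z := by
    have h1 : ContDiff ℝ ((⊤ : ℕ∞) : WithTop ℕ∞) g := hg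
    exact (h1.differentiable (by simp)).differentiableAt
  have h2 : fderiv ℝ (fun w => c * g w) z = c • fderiv ℝ g z := fderiv_const_mul hd c
  unfold dz dzb
  rw [h2]
  simp only [ContinuousLinearMap.smul_apply, smul_eq_mul]
  constructor
  · ring
  · ring

theorem w_smul {φ : ℂ → ℝ} (h : SmR φ) (c : ℝ) (z : ℂ) :
    dz (cR (fun x => c * φ x)) z = c * dz (cR φ) z ∧
      th (fun x => c * φ x) z = c * th φ z := by
  have h1 : Sm (cR φ) := (w_smR h).1
  have h2 : cR (fun x => c * φ x) = fun w => (c : ℂ) * cR φ w := by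
    funext w
    unfold cR
    push_cast
    rfl
  have h3 : dz (cR (fun x => c * φ x)) = fun w => (c : ℂ) * dz (cR φ) w := by
    funext w
    rw [h2]
    exact (h170_wsm h1 c w).1
  constructor
  · rw [h3]
  · unfold th
    rw [h3, (h170_wsm (w_smooth h1).1 c z).2, Complex.re_ofReal_mul]

end Pool.Agent.KS6_69.Ric.H662.Rz
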