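import Pool.Agent.KS6_69.Ric.H662.Rz.Defs
import Pool.Agent.KS6_69.Ric.H662.Rz.P_y_norm

set_option autoImplicit false
set_option linter.unusedVariables false

namespace Pool.Agent.KS6_69.Ric.H662.Rz
open Set Filter Topology ComplexConjugate Finset


theorem y_deriv {K : ℕ → ℕ} {j : ℕ} (hK : 1 ≤ K j) {z : ℂ} (h1 : 1 / 2 ≤ ‖yy K j z‖)
    (h2 : ‖yy K j z‖ ≤ 2) :
    ‖deriv (yy K j) z‖ ≤ 4 * (K j : ℝ) ^ 2 ∧ ‖deriv (deriv (yy K j)) z‖ ≤ 8 * (K j : ℝ) ^ 4 := by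
  obtain ⟨n, hn⟩ : ∃ n : ℕ, n = K j ^ 2 := ⟨_, rfl⟩
  have hn1 : 1 ≤ n := by rw [hn]; exact Nat.one_le_pow _ _ hK
  have hyy : yy K j = fun z : ℂ => (z / 2 ^ j) ^ n := by
    funext z; unfold yy; rw [hn]
  have hd0 : ∀ z : ℂ, HasDerivAt (fun z : ℂ => z / 2 ^ j) (1 / 2 ^ j) z := fun z =>
    (hasDerivAt_id z).div_const (2 ^ j)
  have hdp : ∀ (m : ℕ) (z : ℂ), HasDerivAt (fun z : ℂ => (z / 2 ^ j) ^ m)
      ((m : ℂ) * (z / 2 ^ j) ^ (m - 1) * (1 / 2 ^ j)) z := fun m z => (hd0 z).fun_pow m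
  have e1 : deriv (yy K j) = fun z : ℂ => (n : ℂ) * (z / 2 ^ j) ^ (n - 1) * (1 / 2 ^ j) := by
    rw [hyy]
    funext z
    exact (hdp n z).deriv
  have e2 : deriv (deriv (yy K j)) = fun z : ℂ =>
      (n : ℂ) * (((n - 1 : ℕ) : ℂ) * (z / 2 ^ j) ^ (n - 1 - 1) * (1 / 2 ^ j)) * (1 / 2 ^ j) := by
    rw [e1]
    funext z
    exact (((hdp (n - 1) z).const_mul (n : ℂ)).mul_const (1 / 2 ^ j)).deriv
  obtain ⟨a, ha⟩ : ∃ a : ℝ, a = ‖z‖ / 2 ^ j := ⟨_, rfl⟩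
  have ha0 : 0 ≤ a := by rw [ha]; positivity
  have hza : ‖z / 2 ^ j‖ = a := by rw [ha, norm_div, norm_pow]; simp
  have hyn : ‖yy K j z‖ = a ^ n := by
    rw [hyy]
    show ‖(z / 2 ^ j) ^ n‖ = a ^ n
    rw [norm_pow, hza]
  rw [hyn] at h1 h2
  have h2j : (1:ℝ) ≤ 2 ^ j := one_le_pow₀ (by norm_num)
  have hahalf : 1 / 2 ≤ a := by
    by_contra hlt
    push Not at hlt
    have : a ^ n ≤ a ^ 1 := pow_le_pow_of_le_one ha0 (by linarith) hn1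
    rw [pow_one] at this
    linarith
  have hnr : (n : ℝ) = (K j : ℝ) ^ 2 := by rw [hn]; push_cast; ring
  have hn0 : (0:ℝ) ≤ n := Nat.cast_nonneg n
  constructor
  · rw [e1]
    show ‖(n : ℂ) * (z / 2 ^ j) ^ (n - 1) * (1 / 2 ^ j)‖ ≤ _
    rw [norm_mul, norm_mul, norm_pow, hza, norm_div, norm_one, norm_pow, Complex.norm_natCast]
    have h2n : ‖(2:ℂ)‖ = 2 := by simp
    rw [h2n, ← hnr]
    have h3 : a ^ (n - 1) * a = a ^ n := by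
      rw [← pow_succ]; congr 1; omega
    have h4 : a ^ (n - 1) ≤ 4 := by
      have : 0 ≤ a ^ (n - 1) := by positivity
      nlinarith
    have h5 : (1:ℝ) / 2 ^ j ≤ 1 := by
      rw [div_le_one (by positivity)]; exact h2j
    have h6 : (0:ℝ) ≤ 1 / 2 ^ j := by positivity
    calc (n:ℝ) * a ^ (n - 1) * (1 / 2 ^ j) ≤ (n:ℝ) * a ^ (n - 1) * 1 := by gcongr
      _ ≤ (n:ℝ) * 4 * 1 := by gcongr
      _ = 4 * n := by ring
  · rw [e2]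
    show ‖(n : ℂ) * (((n - 1 : ℕ) : ℂ) * (z / 2 ^ j) ^ (n - 1 - 1) * (1 / 2 ^ j)) * (1 / 2 ^ j)‖ ≤ _
    rw [norm_mul, norm_mul, norm_mul, norm_mul, norm_pow, hza, norm_div, norm_one, norm_pow,
      Complex.norm_natCast, Complex.norm_natCast]
    have h2n : ‖(2:ℂ)‖ = 2 := by simp
    have hK4 : (K j : ℝ) ^ 4 = (n:ℝ) ^ 2 := by rw [hnr]; ring
    rw [h2n, hK4]
    have h5 : (1:ℝ) / 2 ^ j ≤ 1 := by
      rw [div_le_one (by positivity)]; exact h2j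
    have h6 : (0:ℝ) ≤ 1 / 2 ^ j := by positivity
    rcases Nat.lt_or_ge n 2 with hlt | hge
    · have : n - 1 = 0 := by omega
      rw [this]
      simp
    · have h3 : a ^ (n - 1 - 1) * a ^ 2 = a ^ n := by
        rw [← pow_add]; congr 1; omega
      have h4 : a ^ (n - 1 - 1) ≤ 8 := by
        have hp : 0 ≤ a ^ (n - 1 - 1) := by positivity
        have ha2 : 1 / 4 ≤ a ^ 2 := by nlinarith
        nlinarith
      have h7 : ((n - 1 : ℕ) : ℝ) ≤ n := by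
        exact_mod_cast Nat.sub_le n 1
      calc (n:ℝ) * (((n - 1 : ℕ) : ℝ) * a ^ (n - 1 - 1) * (1 / 2 ^ j)) * (1 / 2 ^ j)
          ≤ (n:ℝ) * ((n:ℝ) * 8 * 1) * 1 := by gcongr
        _ = 8 * (n:ℝ) ^ 2 := by ring

end Pool.Agent.KS6_69.Ric.H662.Rz
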