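import Pool.Agent.KS6_69.Ric.H662.Rz.Defs
import Pool.Agent.KS6_69.Ric.H662.Rz.P_w_congr
import Pool.Agent.KS6_69.Ric.H662.Rz.P_w_comp
import Pool.Agent.KS6_69.Ric.H662.Rz.P_w_bump
import Pool.Agent.KS6_69.Ric.H662.Rz.P_y_norm
import Pool.Agent.KS6_69.Ric.H662.Rz.P_y_deriv

set_option autoImplicit false
set_option linter.unusedVariables false

namespace Pool.Agent.KS6_69.Ric.H662.Rz
open Set Filter Topology ComplexConjugate Finset


theorem x_piece_zero (z : ℂ) : dz (cR (fun _ => (0:ℝ))) z = 0 ∧ th (fun _ => (0:ℝ)) z = 0 := by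
  have h1 : dz (cR (fun _ => (0:ℝ))) = fun _ => 0 := by
    funext w
    have : cR (fun _ => (0:ℝ)) = fun _ : ℂ => (0:ℂ) := by
      funext x; simp [cR]
    unfold dz
    rw [this]
    simp
  refine ⟨by rw [h1], ?_⟩
  unfold th
  rw [h1]
  unfold dzb
  simp

theorem x_piece (Q : QD) {K : ℕ → ℕ} {j : ℕ} (hK : 2 ≤ K j) {α β : ℂ} (hβ : ‖β‖ ≤ 8 * K j)
    (hsup : ∀ z, 1 / 4 ≤ ‖α + β * yy K j z‖ ^ 2 → ‖α + β * yy K j z‖ ^ 2 ≤ 4 →
      1 / 2 ≤ ‖yy K j z‖ ∧ ‖yy K j z‖ ≤ 2) (z : ℂ) :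
    ‖dz (cR (fun x => Q.b (‖α + β * yy K j x‖ ^ 2) * ‖deriv (fun x => α + β * yy K j x) x‖ ^ 2)) z‖
      ≤ 3 * Q.Cb * (32 * (K j : ℝ) ^ 3) ^ 3 ∧
    |th (fun x => Q.b (‖α + β * yy K j x‖ ^ 2) * ‖deriv (fun x => α + β * yy K j x) x‖ ^ 2) z|
      ≤ 10 * Q.Cb * (32 * (K j : ℝ) ^ 3) ^ 4 ∧
    SmR (fun x => Q.b (‖α + β * yy K j x‖ ^ 2) * ‖deriv (fun x => α + β * yy K j x) x‖ ^ 2) := by
  obtain ⟨-, -, hyd⟩ := y_norm K j z
  have hv : Differentiable ℂ (fun x => α + β * yy K j x) :=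
    (differentiable_const α).add ((differentiable_const β).mul hyd)
  have hdv : deriv (fun x => α + β * yy K j x) = fun x => β * deriv (yy K j) x := by
    funext x
    rw [deriv_const_add, deriv_const_mul _ (hyd x)]
  have hyd' : Differentiable ℂ (deriv (yy K j)) :=
    differentiableOn_univ.1 ((hyd.differentiableOn (s := univ)).deriv isOpen_univ)
  have hv' : Differentiable ℂ (deriv (fun x => α + β * yy K j x)) := by
    rw [hdv]
    exact (differentiable_const β).mul hyd'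
  have hddv : deriv (deriv (fun x => α + β * yy K j x)) z = β * deriv (deriv (yy K j)) z := by
    rw [hdv, deriv_const_mul _ (hyd' z)]
  have hSm : SmR (fun x => Q.b (‖α + β * yy K j x‖ ^ 2) *
      ‖deriv (fun x => α + β * yy K j x) x‖ ^ 2) := by
    have s1 := (w_comp Q.hb hv z).2.2
    have s2 := (w_comp (F := fun x => x) contDiff_id hv' z).2.2
    exact ContDiff.mul s1 s2
  have hKr : (2:ℝ) ≤ (K j : ℝ) := by exact_mod_cast hK
  have hC := Q.hCb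
  by_cases hcase : 1 / 4 ≤ ‖α + β * yy K j z‖ ^ 2 ∧ ‖α + β * yy K j z‖ ^ 2 ≤ 4
  · obtain ⟨hy1, hy2⟩ := hsup z hcase.1 hcase.2
    obtain ⟨d1, d2⟩ := y_deriv (K := K) (j := j) (by omega) hy1 hy2
    have hv1 : ‖deriv (fun x => α + β * yy K j x) z‖ ≤ 32 * (K j : ℝ) ^ 3 := by
      rw [hdv, norm_mul]
      calc ‖β‖ * ‖deriv (yy K j) z‖ ≤ (8 * K j) * (4 * (K j : ℝ) ^ 2) :=
            mul_le_mul hβ d1 (norm_nonneg _) (by positivity)
        _ = 32 * (K j : ℝ) ^ 3 := by ring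
    have hv2 : ‖deriv (deriv (fun x => α + β * yy K j x)) z‖ ≤ (32 * (K j : ℝ) ^ 3) ^ 2 := by
      rw [hddv, norm_mul]
      calc ‖β‖ * ‖deriv (deriv (yy K j)) z‖ ≤ (8 * K j) * (8 * (K j : ℝ) ^ 4) :=
            mul_le_mul hβ d2 (norm_nonneg _) (by positivity)
        _ = 64 * (K j : ℝ) ^ 5 * 1 := by ring
        _ ≤ 64 * (K j : ℝ) ^ 5 * (16 * K j) :=
            mul_le_mul_of_nonneg_left (by linarith) (by positivity)
        _ = (32 * (K j : ℝ) ^ 3) ^ 2 := by ring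
    obtain ⟨r1, r2, -⟩ := w_bump Q.hb hv z (C := Q.Cb) (A := 32 * (K j : ℝ) ^ 3) (by positivity)
      (fun x => by rw [abs_of_nonneg (Q.b0 x)]; exact (Q.b1 x).trans hC) Q.db Q.ddb Q.br hv1 hv2
    exact ⟨r1, r2, hSm⟩
  · have hcont : Continuous (fun x => ‖α + β * yy K j x‖ ^ 2) := (hv.continuous.norm).pow 2
    have hev : (fun x => Q.b (‖α + β * yy K j x‖ ^ 2) *
        ‖deriv (fun x => α + β * yy K j x) x‖ ^ 2) =ᶠ[𝓝 z] fun _ => (0:ℝ) := by
      rw [not_and_or, not_le, not_le] at hcase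
      rcases hcase with h | h
      · filter_upwards [hcont.continuousAt.eventually (gt_mem_nhds h)] with x hx
        rw [Q.bl _ hx.le, zero_mul]
      · filter_upwards [hcont.continuousAt.eventually (lt_mem_nhds h)] with x hx
        rw [Q.br _ hx.le, zero_mul]
    obtain ⟨c1, c2, -⟩ := w_congr hev
    obtain ⟨z1, z2⟩ := x_piece_zero z
    refine ⟨?_, ?_, hSm⟩
    · rw [c1, z1, norm_zero]; positivity
    · rw [c2, z2, abs_zero]; positivity

end Pool.Agent.KS6_69.Ric.H662.Rz
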