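import Pool.Agent.KS6_69.Ric.H662.Rz.Defs
import Pool.Agent.KS6_69.Ric.H662.Rz.P_w_smR
import Pool.Agent.KS6_69.Ric.H662.Rz.P_w_add
import Pool.Agent.KS6_69.Ric.H662.Rz.P_w_smul
import Pool.Agent.KS6_69.Ric.H662.Rz.P_w_comp
import Pool.Agent.KS6_69.Ric.H662.Rz.P_y_norm

set_option autoImplicit false
set_option linter.unusedVariables false

namespace Pool.Agent.KS6_69.Ric.H662.Rz
open Set Filter Topology ComplexConjugate Finset


theorem h23388_const (c : ℝ) (z : ℂ) : th (fun _ => c) z = 0 := by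
  have h0 : cR (fun _ => c) = fun _ => (c : ℂ) := rfl
  have h1 : dz (cR (fun _ => c)) = fun _ => 0 := by
    rw [h0]
    ext w
    simp [dz]
  unfold th
  rw [h1]
  simp [dzb]

theorem h23388_lp (Q : QD) (x : ℝ) : lp Q.q x = Q.b x := Q.qb x

theorem x_th (Q : QD) (K : ℕ → ℕ) (j : ℕ) (z : ℂ) :
    th (hh Q K j) z = 64 * (Q.b (‖yy K j z‖ ^ 2) * ‖deriv (yy K j) z‖ ^ 2)
      + Q.b (‖8 * (K j : ℂ) * (1 - yy K j z)‖ ^ 2)
        * ‖deriv (fun x => 8 * (K j : ℂ) * (1 - yy K j x)) z‖ ^ 2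
      - Q.b (‖8 * (1 - yy K j z)‖ ^ 2) * ‖deriv (fun x => 8 * (1 - yy K j x)) z‖ ^ 2 := by
  have hy := (y_norm K j z).2.2
  have hv2 : Differentiable ℂ (fun x => 8 * (K j : ℂ) * (1 - yy K j x)) :=
    ((differentiable_const _).sub hy).const_mul _
  have hv3 : Differentiable ℂ (fun x => 8 * (1 - yy K j x)) :=
    ((differentiable_const _).sub hy).const_mul _
  obtain ⟨-, a1, a2⟩ := w_comp Q.hq hy z
  obtain ⟨-, b1, b2⟩ := w_comp Q.hq hv2 z
  obtain ⟨-, c1, c2⟩ := w_comp Q.hq hv3 z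
  have e : hh Q K j = fun x => (64 * Q.q (‖yy K j x‖ ^ 2) +
      Q.q (‖8 * (K j : ℂ) * (1 - yy K j x)‖ ^ 2)) +
      ((-1) * Q.q (‖8 * (1 - yy K j x)‖ ^ 2) + -(2 * Q.M * Real.log (K j))) := by
    ext x
    unfold hh
    ring
  have s1 : SmR (fun x => 64 * Q.q (‖yy K j x‖ ^ 2)) := contDiff_const.mul a2
  have s2 : SmR (fun x => (-1) * Q.q (‖8 * (1 - yy K j x)‖ ^ 2)) := contDiff_const.mul c2
  have s3 : SmR (fun _ : ℂ => -(2 * Q.M * Real.log (K j))) := contDiff_const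
  rw [e, (w_add (s1.add b2) (s2.add s3) z).2, (w_add s1 b2 z).2, (w_add s2 s3 z).2,
    (w_smul a2 64 z).2, (w_smul c2 (-1) z).2, h23388_const, a1, b1, c1]
  simp only [h23388_lp]
  ring

end Pool.Agent.KS6_69.Ric.H662.Rz
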