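import Pool.Agent.KS6_69.Ric.H662.Rz.Defs
import Pool.Agent.KS6_69.Ric.H662.Rz.P_w_smR
import Pool.Agent.KS6_69.Ric.H662.Rz.P_w_add
import Pool.Agent.KS6_69.Ric.H662.Rz.P_w_smul
import Pool.Agent.KS6_69.Ric.H662.Rz.P_y_norm
import Pool.Agent.KS6_69.Ric.H662.Rz.P_y_deriv
import Pool.Agent.KS6_69.Ric.H662.Rz.P_x_smooth
import Pool.Agent.KS6_69.Ric.H662.Rz.P_x_th
import Pool.Agent.KS6_69.Ric.H662.Rz.P_x_piece

set_option autoImplicit false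
set_option linter.unusedVariables false

namespace Pool.Agent.KS6_69.Ric.H662.Rz
open Set Filter Topology ComplexConjugate Finset


/-- one piece of `th (hh)` -/
noncomputable def x_bound_f (Q : QD) (K : ℕ → ℕ) (j : ℕ) (α β : ℂ) (x : ℂ) : ℝ :=
  Q.b (‖α + β * yy K j x‖ ^ 2) * ‖deriv (fun x => α + β * yy K j x) x‖ ^ 2

theorem x_bound_piece0 (Q : QD) {K : ℕ → ℕ} {j : ℕ} (hK : 2 ≤ K j) {α β : ℂ} (hβ : ‖β‖ ≤ 8 * K j)
    (hsup : ∀ z, 1 / 4 ≤ ‖α + β * yy K j z‖ ^ 2 → ‖α + β * yy K j z‖ ^ 2 ≤ 4 →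
      1 / 2 ≤ ‖yy K j z‖ ∧ ‖yy K j z‖ ≤ 2) (z : ℂ) :
    0 ≤ x_bound_f Q K j α β z ∧ x_bound_f Q K j α β z ≤ (32 * (K j : ℝ) ^ 3) ^ 2 := by
  have hk : (2 : ℝ) ≤ K j := by exact_mod_cast hK
  refine ⟨mul_nonneg (Q.b0 _) (by positivity), ?_⟩
  unfold x_bound_f
  by_cases h1 : ‖α + β * yy K j z‖ ^ 2 ≤ 1 / 4
  · rw [Q.bl _ h1, zero_mul]; positivity
  by_cases h2 : 4 ≤ ‖α + β * yy K j z‖ ^ 2
  · rw [Q.br _ h2, zero_mul]; positivity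
  push Not at h1 h2
  obtain ⟨h3, h4⟩ := hsup z h1.le h2.le
  have h5 := (y_deriv (by omega) h3 h4).1
  have hd : deriv (fun x => α + β * yy K j x) z = β * deriv (yy K j) z := by
    rw [deriv_const_add, deriv_const_mul _ ((y_norm K j z).2.2 z)]
  rw [hd, norm_mul]
  have h6 : ‖β‖ * ‖deriv (yy K j) z‖ ≤ (8 * K j) * (4 * (K j : ℝ) ^ 2) :=
    mul_le_mul hβ h5 (norm_nonneg _) (by positivity)
  have h7 : (8 * K j) * (4 * (K j : ℝ) ^ 2) = 32 * (K j : ℝ) ^ 3 := by ring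
  rw [h7] at h6
  have h8 : (‖β‖ * ‖deriv (yy K j) z‖) ^ 2 ≤ (32 * (K j : ℝ) ^ 3) ^ 2 :=
    pow_le_pow_left₀ (by positivity) h6 2
  calc Q.b (‖α + β * yy K j z‖ ^ 2) * (‖β‖ * ‖deriv (yy K j) z‖) ^ 2
      ≤ 1 * (32 * (K j : ℝ) ^ 3) ^ 2 := mul_le_mul (Q.b1 _) h8 (by positivity) zero_le_one
    _ = _ := one_mul _

theorem x_bound_sup1 {K : ℕ → ℕ} {j : ℕ} : ∀ z, 1 / 4 ≤ ‖(0 : ℂ) + 1 * yy K j z‖ ^ 2 →
    ‖(0 : ℂ) + 1 * yy K j z‖ ^ 2 ≤ 4 → 1 / 2 ≤ ‖yy K j z‖ ∧ ‖yy K j z‖ ≤ 2 := by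
  intro z h1 h2
  rw [zero_add, one_mul] at h1 h2
  have h0 := norm_nonneg (yy K j z)
  constructor
  · by_contra h
    push Not at h
    nlinarith
  · by_contra h
    push Not at h
    nlinarith

theorem x_bound_sup2 {K : ℕ → ℕ} {j : ℕ} (c : ℝ) (hc : 8 ≤ c) :
    ∀ z, 1 / 4 ≤ ‖(c : ℂ) + (-c) * yy K j z‖ ^ 2 →
    ‖(c : ℂ) + (-c) * yy K j z‖ ^ 2 ≤ 4 → 1 / 2 ≤ ‖yy K j z‖ ∧ ‖yy K j z‖ ≤ 2 := by
  intro z _ h2
  have h3 : (c : ℂ) + (-c) * yy K j z = (c : ℂ) * (1 - yy K j z) := by ring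
  rw [h3, norm_mul, Complex.norm_real, Real.norm_eq_abs, abs_of_nonneg (by linarith)] at h2
  have h0 := norm_nonneg (1 - yy K j z)
  have h4 : ‖1 - yy K j z‖ ≤ 1 / 4 := by
    by_contra h
    push Not at h
    have h5 : 2 < c * ‖1 - yy K j z‖ := by nlinarith
    nlinarith
  have h6 : ‖(1 : ℂ)‖ - ‖1 - yy K j z‖ ≤ ‖yy K j z‖ := by
    have := norm_sub_norm_le (1 : ℂ) (1 - yy K j z)
    have h7 : (1 : ℂ) - (1 - yy K j z) = yy K j z := by ring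
    rwa [h7] at this
  have h8 : ‖yy K j z‖ ≤ ‖(1 : ℂ)‖ + ‖1 - yy K j z‖ := by
    have := norm_sub_le (1 : ℂ) (1 - yy K j z)
    have h7 : (1 : ℂ) - (1 - yy K j z) = yy K j z := by ring
    rwa [h7] at this
  rw [norm_one] at h6 h8
  constructor <;> linarith

theorem x_bound (Q : QD) {K : ℕ → ℕ} {j : ℕ} (hK : 2 ≤ K j) (z : ℂ) :
    th (hh Q K j) z ≤ 2 ^ 30 * Q.Cb * (K j : ℝ) ^ 12 ∧
    ‖dz (cR (th (hh Q K j))) z‖ ≤ 2 ^ 30 * Q.Cb * (K j : ℝ) ^ 12 ∧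
    |th (th (hh Q K j)) z| ≤ 2 ^ 30 * Q.Cb * (K j : ℝ) ^ 12 := by
  have hk : (2 : ℝ) ≤ K j := by exact_mod_cast hK
  have hCb := Q.hCb
  set f1 := x_bound_f Q K j 0 1 with hf1
  set f2 := x_bound_f Q K j ((8 * (K j : ℝ) : ℝ) : ℂ) (-((8 * (K j : ℝ) : ℝ) : ℂ)) with hf2
  set f3 := x_bound_f Q K j ((8 : ℝ) : ℂ) (-((8 : ℝ) : ℂ)) with hf3
  have hth : th (hh Q K j) = fun x => ((64 * f1 x) + f2 x) + (-1) * f3 x := by
    funext x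
    rw [x_th]
    have e1 : f1 x = Q.b (‖yy K j x‖ ^ 2) * ‖deriv (yy K j) x‖ ^ 2 := by
      simp only [hf1, x_bound_f, zero_add, one_mul]
    have e2 : f2 x = Q.b (‖8 * (K j : ℂ) * (1 - yy K j x)‖ ^ 2)
        * ‖deriv (fun x => 8 * (K j : ℂ) * (1 - yy K j x)) x‖ ^ 2 := by
      have e : (fun x => ((8 * (K j : ℝ) : ℝ) : ℂ) + (-((8 * (K j : ℝ) : ℝ) : ℂ)) * yy K j x) =
          fun x => 8 * (K j : ℂ) * (1 - yy K j x) := by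
        funext x; push_cast; ring
      simp only [hf2, x_bound_f]
      rw [e]
      have e' := congrFun e x
      rw [e']
    have e3 : f3 x = Q.b (‖8 * (1 - yy K j x)‖ ^ 2)
        * ‖deriv (fun x => 8 * (1 - yy K j x)) x‖ ^ 2 := by
      have e : (fun x => ((8 : ℝ) : ℂ) + (-((8 : ℝ) : ℂ)) * yy K j x) =
          fun x => 8 * (1 - yy K j x) := by
        funext x; push_cast; ring
      simp only [hf3, x_bound_f]
      rw [e]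
      have e' := congrFun e x
      rw [e']
    rw [e1, e2, e3]
    ring
  have hβ1 : ‖(1 : ℂ)‖ ≤ 8 * K j := by rw [norm_one]; linarith
  have hβ2 : ‖(-((8 * (K j : ℝ) : ℝ) : ℂ))‖ ≤ 8 * K j := by
    rw [norm_neg, Complex.norm_real, Real.norm_eq_abs, abs_of_nonneg (by positivity)]
  have hβ3 : ‖(-((8 : ℝ) : ℂ))‖ ≤ 8 * K j := by
    rw [norm_neg, Complex.norm_real, Real.norm_eq_abs, abs_of_nonneg (by norm_num)]
    linarith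
  have hs2 := x_bound_sup2 (K := K) (j := j) (8 * (K j : ℝ)) (by linarith)
  have hs3 := x_bound_sup2 (K := K) (j := j) (8 : ℝ) le_rfl
  have p1 := x_piece Q hK hβ1 x_bound_sup1 z
  have p2 := x_piece Q hK hβ2 hs2 z
  have p3 := x_piece Q hK hβ3 hs3 z
  have q1 := x_bound_piece0 Q hK hβ1 x_bound_sup1 z
  have q2 := x_bound_piece0 Q hK hβ2 hs2 z
  have q3 := x_bound_piece0 Q hK hβ3 hs3 z
  obtain ⟨d1, t1, m1⟩ := p1
  obtain ⟨d2, t2, m2⟩ := p2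
  obtain ⟨d3, t3, m3⟩ := p3
  change ‖dz (cR f1) z‖ ≤ _ at d1
  change |th f1 z| ≤ _ at t1
  change SmR f1 at m1
  change ‖dz (cR f2) z‖ ≤ _ at d2
  change |th f2 z| ≤ _ at t2
  change SmR f2 at m2
  change ‖dz (cR f3) z‖ ≤ _ at d3
  change |th f3 z| ≤ _ at t3
  change SmR f3 at m3
  rw [← hf1] at q1
  rw [← hf2] at q2
  rw [← hf3] at q3
  have m1' : SmR (fun x => 64 * f1 x) := contDiff_const.mul m1
  have m12 : SmR (fun x => 64 * f1 x + f2 x) := m1'.add m2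
  have m3' : SmR (fun x => (-1) * f3 x) := contDiff_const.mul m3
  have a1 := w_add m12 m3' z
  have a2 := w_add m1' m2 z
  have a3 := w_smul m1 64 z
  have a4 := w_smul m3 (-1) z
  -- powers
  have k3 : (1 : ℝ) ≤ (K j : ℝ) ^ 3 := one_le_pow₀ (by linarith)
  have k6 : (1 : ℝ) ≤ (K j : ℝ) ^ 6 := one_le_pow₀ (by linarith)
  have k12 : (K j : ℝ) ^ 12 = (K j : ℝ) ^ 6 * (K j : ℝ) ^ 6 := by ring
  have k12' : (K j : ℝ) ^ 12 = (K j : ℝ) ^ 9 * (K j : ℝ) ^ 3 := by ring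
  have k6pos : (0 : ℝ) < (K j : ℝ) ^ 6 := by positivity
  have k9pos : (0 : ℝ) < (K j : ℝ) ^ 9 := by positivity
  have k6le : (K j : ℝ) ^ 6 ≤ (K j : ℝ) ^ 12 := by
    rw [k12]; exact le_mul_of_one_le_left k6pos.le k6
  have k9le : (K j : ℝ) ^ 9 ≤ (K j : ℝ) ^ 12 := by
    rw [k12']; exact le_mul_of_one_le_right k9pos.le k3
  have c12 : (K j : ℝ) ^ 12 ≤ Q.Cb * (K j : ℝ) ^ 12 := le_mul_of_one_le_left (by positivity) hCb
  have c9 : Q.Cb * (K j : ℝ) ^ 9 ≤ Q.Cb * (K j : ℝ) ^ 12 :=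
    mul_le_mul_of_nonneg_left k9le (by linarith)
  have c9pos : 0 ≤ Q.Cb * (K j : ℝ) ^ 9 := by positivity
  have c12pos : 0 ≤ Q.Cb * (K j : ℝ) ^ 12 := by positivity
  have r2 : (32 * (K j : ℝ) ^ 3) ^ 2 = 1024 * (K j : ℝ) ^ 6 := by ring
  have r3 : 3 * Q.Cb * (32 * (K j : ℝ) ^ 3) ^ 3 = 98304 * (Q.Cb * (K j : ℝ) ^ 9) := by ring
  have r4 : 10 * Q.Cb * (32 * (K j : ℝ) ^ 3) ^ 4 = 10485760 * (Q.Cb * (K j : ℝ) ^ 12) := by ring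
  rw [r3] at d1 d2 d3
  rw [r4] at t1 t2 t3
  rw [r2] at q1 q2 q3
  rw [hth]
  refine ⟨?_, ?_, ?_⟩
  · show ((64 * f1 z) + f2 z) + (-1) * f3 z ≤ _
    nlinarith [q1.2, q2.2, q3.1]
  · rw [a1.1, a2.1, a3.1, a4.1]
    have n1 : ‖((64 : ℝ) : ℂ) * dz (cR f1) z + dz (cR f2) z + ((-1 : ℝ) : ℂ) * dz (cR f3) z‖ ≤
        64 * ‖dz (cR f1) z‖ + ‖dz (cR f2) z‖ + ‖dz (cR f3) z‖ := by
      refine (norm_add_le _ _).trans (add_le_add ((norm_add_le _ _).trans (add_le_add ?_ le_rfl)) ?_)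
      · rw [norm_mul, Complex.norm_real]; norm_num
      · rw [norm_mul, Complex.norm_real]; norm_num
    refine n1.trans ?_
    nlinarith
  · rw [a1.2, a2.2, a3.2, a4.2]
    rw [abs_le] at t1 t2 t3 ⊢
    constructor <;> nlinarith [t1.1, t1.2, t2.1, t2.2, t3.1, t3.2]

end Pool.Agent.KS6_69.Ric.H662.Rz
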