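import Pool.Agent.KS6_69.Ric.H662.Rz.Defs
import Pool.Agent.KS6_69.Ric.H662.Rz.P_w_smR
import Pool.Agent.KS6_69.Ric.H662.Rz.P_w_smul
import Pool.Agent.KS6_69.Ric.H662.Rz.P_w_sum
import Pool.Agent.KS6_69.Ric.H662.Rz.P_w_congr
import Pool.Agent.KS6_69.Ric.H662.Rz.P_S_basic
import Pool.Agent.KS6_69.Ric.H662.Rz.P_x_smooth
import Pool.Agent.KS6_69.Ric.H662.Rz.P_x_nonneg
import Pool.Agent.KS6_69.Ric.H662.Rz.P_x_bound2
import Pool.Agent.KS6_69.Ric.H662.Rz.P_x_loc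

set_option autoImplicit false
set_option linter.unusedVariables false

namespace Pool.Agent.KS6_69.Ric.H662.Rz
open Set Filter Topology ComplexConjugate Finset


theorem xXb_pow (a b : ℝ) (ha : 0 ≤ a) (hb : 0 ≤ b) : a ^ 12 + b ^ 12 ≤ (a + b) ^ 12 := by
  have h1 : a ^ 11 ≤ (a + b) ^ 11 := pow_le_pow_left₀ ha (by linarith) 11
  have h2 : b ^ 11 ≤ (a + b) ^ 11 := pow_le_pow_left₀ hb (by linarith) 11
  calc a ^ 12 + b ^ 12 = a * a ^ 11 + b * b ^ 11 := by ring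
    _ ≤ a * (a + b) ^ 11 + b * (a + b) ^ 11 :=
        add_le_add (mul_le_mul_of_nonneg_left h1 ha) (mul_le_mul_of_nonneg_left h2 hb)
    _ = (a + b) ^ 12 := by ring

theorem xXb_sum (a : ℕ → ℝ) (ha : ∀ j, 0 ≤ a j) (J : ℕ) :
    ∑ j ∈ range J, a j ^ 12 ≤ (∑ j ∈ range J, a j) ^ 12 := by
  induction J with
  | zero => simp
  | succ J ih =>
    rw [Finset.sum_range_succ, Finset.sum_range_succ]
    refine le_trans ?_ (xXb_pow _ _ (Finset.sum_nonneg fun j _ => ha j) (ha J))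
    linarith

theorem xXb_bd (Q : QD) {K : ℕ → ℕ} (hK : ∀ j, 2 ≤ K j) (x : ℝ) (hx : 0 ≤ x) (J : ℕ) (a : ℕ → ℝ)
    (ha : ∀ j, 0 ≤ a j) (hb : ∀ j, a j ≤ 2 ^ 54 * Q.Cb * s K j x ^ 12) :
    ∑ j ∈ range J, (1 / ((j : ℝ) + 1)) * a j ≤ 2 ^ 54 * Q.Cb * S K x ^ 12 := by
  obtain ⟨hS1, -, -, hS4⟩ := S_basic (K := K) (fun j => by have := hK j; omega) hx
  have hs : ∀ j, 0 ≤ s K j x := by
    intro j
    unfold s
    exact Finset.sum_nonneg fun k _ => by positivity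
  have hCb : 0 ≤ Q.Cb := by linarith [Q.hCb]
  calc ∑ j ∈ range J, (1 / ((j : ℝ) + 1)) * a j
      ≤ ∑ j ∈ range J, 2 ^ 54 * Q.Cb * s K j x ^ 12 := by
        refine Finset.sum_le_sum fun j _ => ?_
        refine le_trans ?_ (hb j)
        have h1 : 1 / ((j : ℝ) + 1) ≤ 1 := by
          rw [div_le_one (by positivity)]
          have : (0 : ℝ) ≤ j := Nat.cast_nonneg j
          linarith
        calc (1 / ((j : ℝ) + 1)) * a j ≤ 1 * a j := mul_le_mul_of_nonneg_right h1 (ha j)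
          _ = a j := one_mul _
    _ = 2 ^ 54 * Q.Cb * ∑ j ∈ range J, s K j x ^ 12 := by rw [Finset.mul_sum]
    _ ≤ 2 ^ 54 * Q.Cb * (∑ j ∈ range J, s K j x) ^ 12 :=
        mul_le_mul_of_nonneg_left (xXb_sum _ hs J) (by positivity)
    _ ≤ 2 ^ 54 * Q.Cb * S K x ^ 12 :=
        mul_le_mul_of_nonneg_left (pow_le_pow_left₀ (Finset.sum_nonneg fun j _ => hs j)
          (hS4 J) 12) (by positivity)

theorem x_Xi_bounds (Q : QD) {K : ℕ → ℕ} (hK : ∀ j, 2 ≤ K j) (z : ℂ) :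
    0 ≤ th (Xi Q K) z ∧
    th (Xi Q K) z ≤ 2 ^ 54 * Q.Cb * S K (‖z‖ ^ 2) ^ 12 ∧
    ‖dz (cR (th (Xi Q K))) z‖ ≤ 2 ^ 54 * Q.Cb * S K (‖z‖ ^ 2) ^ 12 ∧
    |th (th (Xi Q K)) z| ≤ 2 ^ 54 * Q.Cb * S K (‖z‖ ^ 2) ^ 12 := by
  obtain ⟨J, hJ⟩ : ∃ J : ℕ, ‖z‖ < 2 ^ J * (7 / 10) := by
    obtain ⟨J, hJ⟩ := pow_unbounded_of_one_lt (‖z‖ / (7 / 10)) (show (1 : ℝ) < 2 by norm_num)
    exact ⟨J, by rw [div_lt_iff₀ (by norm_num)] at hJ; exact hJ⟩
  have hloc := x_loc Q hK hJ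
  have hsm : ∀ (φ : ℂ → ℝ) (c : ℝ), SmR φ → SmR (fun x => c * φ x) := by
    intro φ c h
    exact contDiff_const.mul h
  have hth : ∀ x, th (fun x => ∑ j ∈ range J, (1 / ((j : ℝ) + 1)) * hh Q K j x) x =
      ∑ j ∈ range J, (1 / ((j : ℝ) + 1)) * th (hh Q K j) x := by
    intro x
    rw [(w_sum (φ := fun j x => (1 / ((j : ℝ) + 1)) * hh Q K j x)
      (fun j => hsm _ _ (x_smooth Q K j)) J x).2]
    exact Finset.sum_congr rfl fun j _ => (w_smul (x_smooth Q K j) _ x).2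
  have hthsm : ∀ j, SmR (th (hh Q K j)) := fun j => (w_smR (x_smooth Q K j)).2
  have hc := w_congr hloc
  have e1 : th (Xi Q K) z = ∑ j ∈ range J, (1 / ((j : ℝ) + 1)) * th (hh Q K j) z := by
    rw [hc.2.1, hth z]
  have hc2 : th (Xi Q K) =ᶠ[𝓝 z] fun x => ∑ j ∈ range J, (1 / ((j : ℝ) + 1)) * th (hh Q K j) x := by
    refine hc.2.2.trans ?_
    exact Filter.Eventually.of_forall fun x => hth x
  have hc3 := w_congr hc2
  have e2 : dz (cR (th (Xi Q K))) z =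
      ∑ j ∈ range J, ((1 / ((j : ℝ) + 1) : ℝ) : ℂ) * dz (cR (th (hh Q K j))) z := by
    rw [hc3.1, (w_sum (φ := fun j x => (1 / ((j : ℝ) + 1)) * th (hh Q K j) x)
      (fun j => hsm _ _ (hthsm j)) J z).1]
    exact Finset.sum_congr rfl fun j _ => (w_smul (hthsm j) _ z).1
  have e3 : th (th (Xi Q K)) z =
      ∑ j ∈ range J, (1 / ((j : ℝ) + 1)) * th (th (hh Q K j)) z := by
    rw [hc3.2.1, (w_sum (φ := fun j x => (1 / ((j : ℝ) + 1)) * th (hh Q K j) x)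
      (fun j => hsm _ _ (hthsm j)) J z).2]
    exact Finset.sum_congr rfl fun j _ => (w_smul (hthsm j) _ z).2
  have hcj : ∀ j : ℕ, (0 : ℝ) ≤ 1 / ((j : ℝ) + 1) := fun j => by positivity
  have hz : (0 : ℝ) ≤ ‖z‖ ^ 2 := sq_nonneg _
  refine ⟨?_, ?_, ?_, ?_⟩
  · rw [e1]
    exact Finset.sum_nonneg fun j _ => mul_nonneg (hcj j) (x_nonneg Q K j z)
  · rw [e1]
    exact xXb_bd Q hK _ hz J _ (fun j => x_nonneg Q K j z) (fun j => (x_bound2 Q (hK j) z).1)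
  · rw [e2]
    refine (norm_sum_le _ _).trans ?_
    have e4 : ∀ j : ℕ, ‖((1 / ((j : ℝ) + 1) : ℝ) : ℂ) * dz (cR (th (hh Q K j))) z‖ =
        (1 / ((j : ℝ) + 1)) * ‖dz (cR (th (hh Q K j))) z‖ := by
      intro j
      rw [norm_mul, Complex.norm_real, Real.norm_of_nonneg (hcj j)]
    simp only [e4]
    exact xXb_bd Q hK _ hz J _ (fun j => norm_nonneg _) (fun j => (x_bound2 Q (hK j) z).2.1)
  · rw [e3]
    refine (Finset.abs_sum_le_sum_abs _ _).trans ?_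
    have e4 : ∀ j : ℕ, |(1 / ((j : ℝ) + 1)) * th (th (hh Q K j)) z| =
        (1 / ((j : ℝ) + 1)) * |th (th (hh Q K j)) z| := by
      intro j
      rw [abs_mul, abs_of_nonneg (hcj j)]
    simp only [e4]
    exact xXb_bd Q hK _ hz J _ (fun j => abs_nonneg _) (fun j => (x_bound2 Q (hK j) z).2.2)

end Pool.Agent.KS6_69.Ric.H662.Rz
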