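import Pool.Agent.KS6_69.Ric.H662.Rz.Defs

set_option autoImplicit false
set_option linter.unusedVariables false

namespace Pool.Agent.KS6_69.Ric.H662.Rz
open Set Filter Topology ComplexConjugate Finset


theorem t2 (N : ℕ) {y : ℝ} (hy : 0 ≤ y) :
    (2 * (N : ℝ) + 1) ^ 4 * y ^ (2 * N + 1) ≤
      16 * y * (1 + ∑ k ∈ range N, y ^ (k + 1)) ^ 4 := by
  obtain ⟨t, ht, rfl⟩ : ∃ t : ℝ, 0 ≤ t ∧ y = t ^ 2 :=
    ⟨Real.sqrt y, Real.sqrt_nonneg _, (Real.sq_sqrt hy).symm⟩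
  have hA : (1 + ∑ k ∈ range N, (t ^ 2) ^ (k + 1)) = ∑ k ∈ range (N + 1), (t ^ 2) ^ k := by
    rw [Finset.sum_range_succ', pow_zero, add_comm]
  have hrefl : ∑ k ∈ range (N + 1), (t ^ 2) ^ (N - k) = ∑ k ∈ range (N + 1), (t ^ 2) ^ k := by
    have := Finset.sum_range_reflect (fun k => (t ^ 2) ^ k) (N + 1)
    simpa using this
  have hlow : ((N : ℝ) + 1) * t ^ N ≤ ∑ k ∈ range (N + 1), (t ^ 2) ^ k := by
    have h1 : ∑ k ∈ range (N + 1), 2 * t ^ N ≤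
        ∑ k ∈ range (N + 1), ((t ^ 2) ^ k + (t ^ 2) ^ (N - k)) := by
      apply Finset.sum_le_sum
      intro k hk
      have hkN : k ≤ N := Nat.lt_succ_iff.1 (Finset.mem_range.1 hk)
      have h2 : t ^ N = t ^ k * t ^ (N - k) := by rw [← pow_add]; congr 1; omega
      have h3 := sq_nonneg (t ^ k - t ^ (N - k))
      rw [h2, ← pow_mul, ← pow_mul, mul_comm 2 k, mul_comm 2 (N - k), pow_mul, pow_mul]
      nlinarith
    rw [Finset.sum_add_distrib, hrefl, Finset.sum_const, Finset.card_range, nsmul_eq_mul] at h1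
    push_cast at h1
    linarith
  rw [hA]
  set A := ∑ k ∈ range (N + 1), (t ^ 2) ^ k with hAdef
  have htN : 0 ≤ ((N : ℝ) + 1) * t ^ N := by positivity
  have h4 : (((N : ℝ) + 1) * t ^ N) ^ 4 ≤ A ^ 4 := pow_le_pow_left₀ htN hlow 4
  have h5 : (2 * (N : ℝ) + 1) ^ 4 ≤ 16 * ((N : ℝ) + 1) ^ 4 := by
    have h6 : (2 * (N : ℝ) + 1) ^ 4 ≤ (2 * ((N : ℝ) + 1)) ^ 4 :=
      pow_le_pow_left₀ (by positivity) (by linarith) 4
    calc (2 * (N : ℝ) + 1) ^ 4 ≤ (2 * ((N : ℝ) + 1)) ^ 4 := h6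
      _ = 16 * ((N : ℝ) + 1) ^ 4 := by ring
  have h7 : (t ^ 2) ^ (2 * N + 1) = t ^ 2 * (t ^ N) ^ 4 := by
    rw [← pow_mul, ← pow_mul, ← pow_add]
    congr 1
    ring
  rw [h7]
  calc (2 * (N : ℝ) + 1) ^ 4 * (t ^ 2 * (t ^ N) ^ 4)
      ≤ (16 * ((N : ℝ) + 1) ^ 4) * (t ^ 2 * (t ^ N) ^ 4) :=
        mul_le_mul_of_nonneg_right h5 (by positivity)
    _ = 16 * t ^ 2 * (((N : ℝ) + 1) * t ^ N) ^ 4 := by ring
    _ ≤ 16 * t ^ 2 * A ^ 4 := mul_le_mul_of_nonneg_left h4 (by positivity)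

end Pool.Agent.KS6_69.Ric.H662.Rz
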