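import Pool.Agent.KS6_69.Ric.H662.Rz.Defs
import Pool.Agent.KS6_69.Ric.H662.Rz.P_u_mono
import Pool.Agent.KS6_69.Ric.H662.Rz.P_S_basic
import Pool.Agent.KS6_69.Ric.H662.Rz.P_P_lp
import Pool.Agent.KS6_69.Ric.H662.Rz.P_P_sum

set_option autoImplicit false
set_option linter.unusedVariables false

namespace Pool.Agent.KS6_69.Ric.H662.Rz
open Set Filter Topology ComplexConjugate Finset


theorem P_bounds_aux {a F : ℕ → ℝ} (h0 : ∀ j, 0 ≤ a j) (h1 : ∀ j, a j ≤ F j) (hF : Summable F)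
    {B : ℝ} (hB : ∑' j, F j ≤ B) : |∑' j, a j| ≤ B := by
  rw [abs_of_nonneg (tsum_nonneg h0)]
  exact ((Summable.of_nonneg_of_le h0 h1 hF).tsum_le_tsum h1 hF).trans hB

theorem P_bounds {K : ℕ → ℕ} (hK : ∀ j, 1 ≤ K j) : ∃ C : ℝ, 1 ≤ C ∧ ∀ r : ℝ, 0 ≤ r →
    |lp (P K) (r ^ 2)| ≤ C * S K (r ^ 2) ^ 5 ∧
    r * |deriv (lp (P K)) (r ^ 2)| ≤ C * S K (r ^ 2) ^ 5 ∧
    |lp (lp (P K)) (r ^ 2)| ≤ C * S K (r ^ 2) ^ 5 := by
  have hS1 : 1 ≤ S K 1 := (S_basic hK (zero_le_one)).1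
  have hS15 : 1 ≤ S K 1 ^ 5 := one_le_pow₀ hS1
  refine ⟨22 * S K 1 ^ 5, by linarith, fun r hr => ?_⟩
  obtain ⟨X, hX⟩ : ∃ X, X = max 1 (r ^ 2) := ⟨_, rfl⟩
  have hX1 : 1 ≤ X := by
    rw [hX]
    exact le_max_left _ _
  have hX2 : r ^ 2 ≤ X := by
    rw [hX]
    exact le_max_right _ _
  have hX0 : 0 ≤ X := by linarith
  have hrX : r ≤ X := by
    rcases le_total r 1 with h | h
    · linarith
    · nlinarith
  have hx0 : 0 ≤ r ^ 2 := sq_nonneg r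
  have hSr : 1 ≤ S K (r ^ 2) := (S_basic hK hx0).1
  have hSX : S K X ≤ S K 1 * S K (r ^ 2) := by
    rcases le_total (r ^ 2) 1 with h | h
    · rw [hX, max_eq_left h]
      nlinarith
    · rw [hX, max_eq_right h]
      nlinarith
  have hSX0 : 0 ≤ S K X := by linarith [(S_basic hK hX0).1]
  obtain ⟨hFs, hFb⟩ := P_sum hK hX1
  have hB : ∑' j, (2 * (K j : ℝ) + 1) ^ 4 * X ^ (2 * K j + 1) / 4 ^ (j * (2 * K j + 1)) ≤
      22 * S K 1 ^ 5 * S K (r ^ 2) ^ 5 := by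
    refine hFb.trans ?_
    have h1 : S K X ^ 5 ≤ (S K 1 * S K (r ^ 2)) ^ 5 := pow_le_pow_left₀ hSX0 hSX 5
    rw [mul_pow] at h1
    linarith
  obtain ⟨-, e1, e2, e3⟩ := P_lp K (r ^ 2)
  have hk0 : ∀ j, (1 : ℝ) ≤ K j := fun j => by exact_mod_cast hK j
  have hxp : ∀ m : ℕ, (r ^ 2) ^ m ≤ X ^ m := fun m => pow_le_pow_left₀ hx0 hX2 m
  refine ⟨?_, ?_, ?_⟩
  · rw [e1]
    refine P_bounds_aux (fun j => by positivity) (fun j => ?_) hFs hB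
    apply div_le_div_of_nonneg_right _ (by positivity)
    have h1 : (2 * (K j : ℝ) + 1) ^ 2 ≤ (2 * (K j : ℝ) + 1) ^ 4 :=
      pow_le_pow_right₀ (by linarith [hk0 j]) (by norm_num)
    have h2 : (r ^ 2) ^ (2 * K j) ≤ X ^ (2 * K j + 1) :=
      (hxp _).trans (pow_le_pow_right₀ hX1 (by omega))
    exact mul_le_mul h1 h2 (by positivity) (by positivity)
  · rw [e2]
    have h0 : ∀ t : ℝ, r * |t| = |r * t| := fun t => by rw [abs_mul, abs_of_nonneg hr]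
    rw [h0, ← tsum_mul_left]
    refine P_bounds_aux (fun j => by positivity) (fun j => ?_) hFs hB
    rw [← mul_div_assoc]
    apply div_le_div_of_nonneg_right _ (by positivity)
    have h1 : (2 * (K j : ℝ) + 1) ^ 2 * (2 * (K j : ℝ)) ≤ (2 * (K j : ℝ) + 1) ^ 4 := by
      have h3 : (2 * (K j : ℝ)) ≤ (2 * (K j : ℝ) + 1) ^ 2 := by nlinarith [hk0 j]
      calc (2 * (K j : ℝ) + 1) ^ 2 * (2 * (K j : ℝ)) ≤
            (2 * (K j : ℝ) + 1) ^ 2 * (2 * (K j : ℝ) + 1) ^ 2 :=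
              mul_le_mul_of_nonneg_left h3 (by positivity)
        _ = (2 * (K j : ℝ) + 1) ^ 4 := by ring
    have h2 : r * (r ^ 2) ^ (2 * K j - 1) ≤ X ^ (2 * K j + 1) := by
      calc r * (r ^ 2) ^ (2 * K j - 1) ≤ X * X ^ (2 * K j - 1) :=
            mul_le_mul hrX (hxp _) (by positivity) hX0
        _ = X ^ (2 * K j - 1 + 1) := by ring
        _ ≤ X ^ (2 * K j + 1) := pow_le_pow_right₀ hX1 (by omega)
    calc r * ((2 * (K j : ℝ) + 1) ^ 2 * (2 * (K j : ℝ)) * (r ^ 2) ^ (2 * K j - 1)) =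
          ((2 * (K j : ℝ) + 1) ^ 2 * (2 * (K j : ℝ))) * (r * (r ^ 2) ^ (2 * K j - 1)) := by ring
      _ ≤ (2 * (K j : ℝ) + 1) ^ 4 * X ^ (2 * K j + 1) :=
          mul_le_mul h1 h2 (by positivity) (by positivity)
  · rw [e3]
    refine P_bounds_aux (fun j => by positivity) (fun j => ?_) hFs hB
    apply div_le_div_of_nonneg_right _ (by positivity)
    have h1 : (2 * (K j : ℝ) + 1) ^ 2 * (2 * (K j : ℝ)) ^ 2 ≤ (2 * (K j : ℝ) + 1) ^ 4 := by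
      have h3 : (2 * (K j : ℝ)) ^ 2 ≤ (2 * (K j : ℝ) + 1) ^ 2 := by nlinarith [hk0 j]
      calc (2 * (K j : ℝ) + 1) ^ 2 * (2 * (K j : ℝ)) ^ 2 ≤
            (2 * (K j : ℝ) + 1) ^ 2 * (2 * (K j : ℝ) + 1) ^ 2 :=
              mul_le_mul_of_nonneg_left h3 (by positivity)
        _ = (2 * (K j : ℝ) + 1) ^ 4 := by ring
    have h2 : (r ^ 2) ^ (2 * K j - 1) ≤ X ^ (2 * K j + 1) :=
      (hxp _).trans (pow_le_pow_right₀ hX1 (by omega))
    exact mul_le_mul h1 h2 (by positivity) (by positivity)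

end Pool.Agent.KS6_69.Ric.H662.Rz
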