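import Pool.Agent.KS6_69.Ric.H662.Rz.Defs
import Pool.Agent.KS6_69.Ric.H662.Rz.P_u_pos
import Pool.Agent.KS6_69.Ric.H662.Rz.P_S_basic
import Pool.Agent.KS6_69.Ric.H662.Rz.P_S_deriv
import Pool.Agent.KS6_69.Ric.H662.Rz.P_S_growth

set_option autoImplicit false
set_option linter.unusedVariables false

namespace Pool.Agent.KS6_69.Ric.H662.Rz
open Set Filter Topology ComplexConjugate Finset


theorem psi_key {r S U L LE n C i w : ℝ} (hr : 1 ≤ r) (hn0 : 0 ≤ n) (hn : n ≤ r) (hS : 1 ≤ S)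
    (hU : 0 ≤ U) (hL : 0 ≤ L) (hLE : 0 ≤ LE) (hC : 1 ≤ C) (h1 : r ^ 2 * U ≤ C * S)
    (h2 : r ^ 2 * L ≤ C * S ^ 2) (hi : |i| ≤ n * w) (hw : 0 ≤ w) :
    |((1 / (2 * r) * LE + r * (LE * (40 * U))) * S - r * LE * L) / S ^ 2 * (2 * i)|
      ≤ 100 * C * (LE * w) := by
  have hr0 : 0 < r := by linarith
  have hS0 : 0 < S := by linarith
  have hnum : |(1 / (2 * r) * LE + r * (LE * (40 * U))) * S - r * LE * L|
      ≤ (1 / (2 * r) * LE + r * (LE * (40 * U))) * S + r * LE * L := by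
    have ha : 0 ≤ (1 / (2 * r) * LE + r * (LE * (40 * U))) * S := by positivity
    have hb : 0 ≤ r * LE * L := by positivity
    rw [abs_le]
    constructor <;> linarith
  have h2i : |2 * i| ≤ 2 * (r * w) := by
    rw [abs_mul, abs_two]
    have : n * w ≤ r * w := mul_le_mul_of_nonneg_right hn hw
    linarith
  rw [abs_mul, abs_div, abs_of_pos (show (0 : ℝ) < S ^ 2 by positivity)]
  have hstep : |(1 / (2 * r) * LE + r * (LE * (40 * U))) * S - r * LE * L| / S ^ 2 * |2 * i|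
      ≤ ((1 / (2 * r) * LE + r * (LE * (40 * U))) * S + r * LE * L) / S ^ 2 * (2 * (r * w)) := by
    apply mul_le_mul _ h2i (abs_nonneg _) (by positivity)
    exact div_le_div_of_nonneg_right hnum (by positivity)
  refine hstep.trans ?_
  have heq : ((1 / (2 * r) * LE + r * (LE * (40 * U))) * S + r * LE * L) / S ^ 2 * (2 * (r * w))
      = LE * w * ((S + 80 * (r ^ 2 * U) * S + 2 * (r ^ 2 * L)) / S ^ 2) := by
    field_simp
    ring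
  rw [heq]
  have hq : (S + 80 * (r ^ 2 * U) * S + 2 * (r ^ 2 * L)) / S ^ 2 ≤ 100 * C := by
    rw [div_le_iff₀ (by positivity)]
    have e1 : (r ^ 2 * U) * S ≤ C * S * S := mul_le_mul_of_nonneg_right h1 hS0.le
    have e2 : S ≤ C * S ^ 2 := by nlinarith [mul_nonneg (sub_nonneg.mpr hC) (sub_nonneg.mpr hS), mul_pos hS0 hS0]
    have e3 : 0 ≤ C * S ^ 2 := by positivity
    nlinarith
  calc LE * w * ((S + 80 * (r ^ 2 * U) * S + 2 * (r ^ 2 * L)) / S ^ 2)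
      ≤ LE * w * (100 * C) := mul_le_mul_of_nonneg_left hq (by positivity)
    _ = 100 * C * (LE * w) := by ring

theorem psi_lip {K : ℕ → ℕ} (hK : ∀ j, 2 ≤ K j) : ∃ C : ℝ, 1 ≤ C ∧ ∀ Λ : ℝ, 1 ≤ Λ →
    ∀ z v : ℂ, |fderiv ℝ (psif Λ K) z v| ≤ C * (Real.sqrt (g0f Λ K z) * ‖v‖) := by
  have hK1 : ∀ j, 1 ≤ K j := fun j => le_trans (by norm_num) (hK j)
  obtain ⟨C, hC, hg⟩ := S_growth hK1
  refine ⟨100 * C, by linarith, fun Λ hΛ z v => ?_⟩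
  have hx0 : (0 : ℝ) ≤ ‖z‖ ^ 2 := sq_nonneg _
  obtain ⟨g1, g2⟩ := hg (‖z‖ ^ 2) hx0
  obtain ⟨u0, u1, u2⟩ := u_pos hK1 hx0
  obtain ⟨S1, -, -, -⟩ := S_basic hK1 hx0
  obtain ⟨cu, -, -, dS⟩ := S_deriv K
  have hdu : HasDerivAt (u K) (deriv (u K) (‖z‖ ^ 2)) (‖z‖ ^ 2) :=
    ((cu.differentiable (by simp)) (‖z‖ ^ 2)).hasDerivAt
  have hr1 : HasDerivAt (fun x : ℝ => Real.sqrt (1 + x)) (1 / (2 * Real.sqrt (1 + ‖z‖ ^ 2)))
      (‖z‖ ^ 2) := by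
    have h1 : HasDerivAt (fun x : ℝ => 1 + x) 1 (‖z‖ ^ 2) := (hasDerivAt_id _).const_add 1
    exact h1.sqrt (by positivity)
  have hE : HasDerivAt (fun x : ℝ => Real.sqrt Λ * Real.exp (40 * u K x))
      (Real.sqrt Λ * (Real.exp (40 * u K (‖z‖ ^ 2)) * (40 * deriv (u K) (‖z‖ ^ 2)))) (‖z‖ ^ 2) :=
    ((hdu.const_mul 40).exp).const_mul (Real.sqrt Λ)
  have hSne : S K (‖z‖ ^ 2) ≠ 0 := by linarith
  have hF : HasDerivAt (fun x : ℝ => Real.sqrt (1 + x) * (Real.sqrt Λ * Real.exp (40 * u K x)) / S K x)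
      _ (‖z‖ ^ 2) := (hr1.mul hE).div (dS _) hSne
  have hn : HasFDerivAt (fun z : ℂ => ‖z‖ ^ 2) (2 • (innerSL ℝ z)) z :=
    (hasStrictFDerivAt_norm_sq z).hasFDerivAt
  have hcomp := hF.comp_hasFDerivAt z hn
  have hfd : fderiv ℝ (psif Λ K) z = _ := hcomp.fderiv
  have hsq : Real.sqrt (g0f Λ K z) = Real.sqrt Λ * Real.exp (40 * u K (‖z‖ ^ 2)) := by
    unfold g0f
    rw [Real.sqrt_mul (by linarith)]
    congr 1
    rw [show 80 * u K (‖z‖ ^ 2) = 40 * u K (‖z‖ ^ 2) + 40 * u K (‖z‖ ^ 2) by ring, Real.exp_add,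
      Real.sqrt_mul_self (Real.exp_pos _).le]
  rw [hfd, hsq]
  have hin : |(inner ℝ z v : ℝ)| ≤ ‖z‖ * ‖v‖ := abs_real_inner_le_norm z v
  have hr : 1 ≤ Real.sqrt (1 + ‖z‖ ^ 2) := by
    rw [Real.one_le_sqrt]
    linarith
  have hzr : ‖z‖ ≤ Real.sqrt (1 + ‖z‖ ^ 2) := by
    apply Real.le_sqrt_of_sq_le
    linarith
  have hr2 : Real.sqrt (1 + ‖z‖ ^ 2) ^ 2 = 1 + ‖z‖ ^ 2 := Real.sq_sqrt (by linarith)
  have hLE : 0 ≤ Real.sqrt Λ * Real.exp (40 * u K (‖z‖ ^ 2)) := by positivity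
  have key := psi_key (r := Real.sqrt (1 + ‖z‖ ^ 2)) (S := S K (‖z‖ ^ 2))
    (U := deriv (u K) (‖z‖ ^ 2)) (L := lp (u K) (‖z‖ ^ 2))
    (LE := Real.sqrt Λ * Real.exp (40 * u K (‖z‖ ^ 2))) (n := ‖z‖) (C := C)
    (i := (inner ℝ z v : ℝ)) (w := ‖v‖) hr (norm_nonneg _) hzr S1 u1 (by linarith) hLE hC
    (by rw [hr2]; exact g1) (by rw [hr2]; exact g2) hin (norm_nonneg _)
  refine le_trans (le_of_eq ?_) key
  congr 1
  simp only [smul_apply, innerSL_apply_apply, smul_eq_mul, nsmul_eq_mul,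
    Nat.cast_ofNat, Pi.mul_apply]
  ring

end Pool.Agent.KS6_69.Ric.H662.Rz
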