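import Pool.Agent.KS6_69.Ric.H662.Rz.Defs

set_option autoImplicit false
set_option linter.unusedVariables false

namespace Pool.Agent.KS6_69.Ric.H662.Rz
open Set Filter Topology ComplexConjugate Finset


/-- the bump -/
noncomputable def exists_QD_b (x : ℝ) : ℝ :=
  Real.smoothTransition (4 * x - 1) * Real.smoothTransition ((4 - x) / 2)

lemma exists_QD_b_smooth : ContDiff ℝ ((⊤ : ℕ∞) : WithTop ℕ∞) exists_QD_b := by
  unfold exists_QD_b
  refine ContDiff.mul ?_ ?_
  · exact Real.smoothTransition.contDiff.comp (by fun_prop)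
  · exact Real.smoothTransition.contDiff.comp (by fun_prop)

lemma exists_QD_b_l {x : ℝ} (hx : x ≤ 1 / 4) : exists_QD_b x = 0 := by
  unfold exists_QD_b
  rw [Real.smoothTransition.zero_of_nonpos (by linarith), zero_mul]

lemma exists_QD_b_r {x : ℝ} (hx : 4 ≤ x) : exists_QD_b x = 0 := by
  unfold exists_QD_b
  rw [Real.smoothTransition.zero_of_nonpos (x := (4 - x) / 2) (by linarith), mul_zero]

lemma exists_QD_b_0 (x : ℝ) : 0 ≤ exists_QD_b x :=
  mul_nonneg (Real.smoothTransition.nonneg _) (Real.smoothTransition.nonneg _)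

lemma exists_QD_b_1 (x : ℝ) : exists_QD_b x ≤ 1 :=
  mul_le_one₀ (Real.smoothTransition.le_one _) (Real.smoothTransition.nonneg _)
    (Real.smoothTransition.le_one _)

lemma exists_QD_b_one {x : ℝ} (h1 : 1 / 2 ≤ x) (h2 : x ≤ 2) : exists_QD_b x = 1 := by
  unfold exists_QD_b
  rw [Real.smoothTransition.one_of_one_le (by linarith),
    Real.smoothTransition.one_of_one_le (by linarith), one_mul]

/-- its primitive -/
noncomputable def exists_QD_m (x : ℝ) : ℝ := ∫ t in (0:ℝ)..x, exists_QD_b t

lemma exists_QD_m_deriv (x : ℝ) : HasDerivAt exists_QD_m (exists_QD_b x) x :=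
  intervalIntegral.integral_hasDerivAt_right
    (exists_QD_b_smooth.continuous.intervalIntegrable _ _)
    (exists_QD_b_smooth.continuous.stronglyMeasurableAtFilter _ _)
    exists_QD_b_smooth.continuous.continuousAt

lemma exists_QD_m_smooth : ContDiff ℝ ((⊤ : ℕ∞) : WithTop ℕ∞) exists_QD_m := by
  rw [contDiff_infty_iff_deriv]
  refine ⟨fun x => (exists_QD_m_deriv x).differentiableAt, ?_⟩
  have : deriv exists_QD_m = exists_QD_b := by
    funext x
    exact (exists_QD_m_deriv x).deriv
  rw [this]
  exact exists_QD_b_smooth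

lemma exists_QD_m_l {x : ℝ} (hx : x ≤ 1 / 4) : exists_QD_m x = 0 := by
  unfold exists_QD_m
  have : ∫ t in (0:ℝ)..x, exists_QD_b t = ∫ t in (0:ℝ)..x, (0:ℝ) := by
    refine intervalIntegral.integral_congr fun t ht => ?_
    refine exists_QD_b_l ?_
    rcases le_total 0 x with h | h
    · rw [uIcc_of_le h] at ht; linarith [ht.2]
    · rw [uIcc_of_ge h] at ht; linarith [ht.2]
  rw [this]
  simp

lemma exists_QD_m_r {x : ℝ} (hx : 4 ≤ x) : exists_QD_m x = exists_QD_m 4 := by
  unfold exists_QD_m
  have h1 : ∫ t in (4:ℝ)..x, exists_QD_b t = ∫ t in (4:ℝ)..x, (0:ℝ) := by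
    refine intervalIntegral.integral_congr fun t ht => ?_
    refine exists_QD_b_r ?_
    rw [uIcc_of_le hx] at ht
    exact ht.1
  rw [← intervalIntegral.integral_add_adjacent_intervals
    (exists_QD_b_smooth.continuous.intervalIntegrable 0 4)
    (exists_QD_b_smooth.continuous.intervalIntegrable 4 x), h1]
  simp

lemma exists_QD_m_pos : 0 < exists_QD_m 4 := by
  unfold exists_QD_m
  refine intervalIntegral.integral_pos (by norm_num) exists_QD_b_smooth.continuous.continuousOn
    (fun x _ => exists_QD_b_0 x) ⟨1, ⟨by norm_num, by norm_num⟩, ?_⟩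
  rw [exists_QD_b_one (by norm_num) (by norm_num)]
  exact one_pos

/-- derivative of the profile -/
noncomputable def exists_QD_k (x : ℝ) : ℝ := exists_QD_m x / x

lemma exists_QD_k_smooth : ContDiff ℝ ((⊤ : ℕ∞) : WithTop ℕ∞) exists_QD_k := by
  rw [contDiff_iff_contDiffAt]
  intro x
  by_cases hx : x < 1 / 4
  · have : exists_QD_k =ᶠ[𝓝 x] fun _ => (0:ℝ) := by
      filter_upwards [Iio_mem_nhds hx] with y hy
      unfold exists_QD_k
      rw [exists_QD_m_l (le_of_lt hy), zero_div]
    exact contDiffAt_const.congr_of_eventuallyEq this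
  · push Not at hx
    have hx0 : x ≠ 0 := by
      intro h; rw [h] at hx; norm_num at hx
    exact exists_QD_m_smooth.contDiffAt.div contDiffAt_id hx0

lemma exists_QD_k_l {x : ℝ} (hx : x ≤ 1 / 4) : exists_QD_k x = 0 := by
  unfold exists_QD_k
  rw [exists_QD_m_l hx, zero_div]

lemma exists_QD_k_mul (x : ℝ) : x * exists_QD_k x = exists_QD_m x := by
  by_cases hx : x = 0
  · rw [hx, zero_mul, exists_QD_m_l (by norm_num)]
  · unfold exists_QD_k
    field_simp

/-- the profile -/
noncomputable def exists_QD_q (x : ℝ) : ℝ := ∫ t in (0:ℝ)..x, exists_QD_k t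

lemma exists_QD_q_deriv (x : ℝ) : HasDerivAt exists_QD_q (exists_QD_k x) x :=
  intervalIntegral.integral_hasDerivAt_right
    (exists_QD_k_smooth.continuous.intervalIntegrable _ _)
    (exists_QD_k_smooth.continuous.stronglyMeasurableAtFilter _ _)
    exists_QD_k_smooth.continuous.continuousAt

lemma exists_QD_q_deriv' : deriv exists_QD_q = exists_QD_k := by
  funext x
  exact (exists_QD_q_deriv x).deriv

lemma exists_QD_q_smooth : ContDiff ℝ ((⊤ : ℕ∞) : WithTop ℕ∞) exists_QD_q := by
  rw [contDiff_infty_iff_deriv]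
  refine ⟨fun x => (exists_QD_q_deriv x).differentiableAt, ?_⟩
  rw [exists_QD_q_deriv']
  exact exists_QD_k_smooth

lemma exists_QD_q_l {x : ℝ} (hx : x ≤ 1 / 4) : exists_QD_q x = 0 := by
  unfold exists_QD_q
  have : ∫ t in (0:ℝ)..x, exists_QD_k t = ∫ t in (0:ℝ)..x, (0:ℝ) := by
    refine intervalIntegral.integral_congr fun t ht => ?_
    refine exists_QD_k_l ?_
    rcases le_total 0 x with h | h
    · rw [uIcc_of_le h] at ht; linarith [ht.2]
    · rw [uIcc_of_ge h] at ht; linarith [ht.2]
  rw [this]
  simp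

lemma exists_QD_q_r {x : ℝ} (hx : 4 ≤ x) : exists_QD_q x =
    exists_QD_m 4 * Real.log x + (exists_QD_q 4 - exists_QD_m 4 * Real.log 4) := by
  have h1 : ∫ t in (4:ℝ)..x, exists_QD_k t = ∫ t in (4:ℝ)..x, exists_QD_m 4 * (1 / t) := by
    refine intervalIntegral.integral_congr fun t ht => ?_
    rw [uIcc_of_le hx] at ht
    show exists_QD_k t = exists_QD_m 4 * (1 / t)
    unfold exists_QD_k
    rw [exists_QD_m_r ht.1]
    ring
  have h2 : exists_QD_q x = exists_QD_q 4 + ∫ t in (4:ℝ)..x, exists_QD_k t := by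
    unfold exists_QD_q
    rw [intervalIntegral.integral_add_adjacent_intervals
      (exists_QD_k_smooth.continuous.intervalIntegrable 0 4)
      (exists_QD_k_smooth.continuous.intervalIntegrable 4 x)]
  rw [h2, h1, intervalIntegral.integral_const_mul, integral_one_div_of_pos (by norm_num)
    (by linarith), Real.log_div (by linarith) (by norm_num)]
  ring

lemma exists_QD_qb (x : ℝ) : deriv exists_QD_q x + x * deriv (deriv exists_QD_q) x =
    exists_QD_b x := by
  rw [exists_QD_q_deriv']
  have hk : HasDerivAt exists_QD_k (deriv exists_QD_k x) x :=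
    ((exists_QD_k_smooth.differentiable (by simp)) x).hasDerivAt
  have h1 : HasDerivAt (fun y => y * exists_QD_k y)
      (1 * exists_QD_k x + x * deriv exists_QD_k x) x := (hasDerivAt_id x).mul hk
  have h2 : (fun y => y * exists_QD_k y) = exists_QD_m := by
    funext y; exact exists_QD_k_mul y
  rw [h2] at h1
  have := h1.unique (exists_QD_m_deriv x)
  linarith

theorem exists_QD : Nonempty QD := by
  have hsupp : HasCompactSupport exists_QD_b := by
    refine HasCompactSupport.intro (isCompact_Icc (a := (0:ℝ)) (b := 4)) fun x hx => ?_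
    rw [Set.mem_Icc, not_and_or, not_le, not_le] at hx
    rcases hx with h | h
    · exact exists_QD_b_l (by linarith)
    · exact exists_QD_b_r h.le
  have hd1 : ContDiff ℝ ((⊤ : ℕ∞) : WithTop ℕ∞) (deriv exists_QD_b) :=
    (contDiff_infty_iff_deriv.1 exists_QD_b_smooth).2
  have hd2 : ContDiff ℝ ((⊤ : ℕ∞) : WithTop ℕ∞) (deriv (deriv exists_QD_b)) :=
    (contDiff_infty_iff_deriv.1 hd1).2
  obtain ⟨C1, hC1⟩ := hsupp.deriv.exists_bound_of_continuous hd1.continuous
  obtain ⟨C2, hC2⟩ := hsupp.deriv.deriv.exists_bound_of_continuous hd2.continuous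
  exact ⟨{ q := exists_QD_q
           b := exists_QD_b
           M := exists_QD_m 4
           c0 := exists_QD_q 4 - exists_QD_m 4 * Real.log 4
           Cb := max 1 (max C1 C2)
           hq := exists_QD_q_smooth
           hb := exists_QD_b_smooth
           hM := exists_QD_m_pos
           hCb := le_max_left _ _
           b0 := exists_QD_b_0
           b1 := exists_QD_b_1
           bone := fun x h1 h2 => exists_QD_b_one h1 h2
           bl := fun x hx => exists_QD_b_l hx
           br := fun x hx => exists_QD_b_r hx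
           db := fun x => (hC1 x).trans ((le_max_left _ _).trans (le_max_right _ _))
           ddb := fun x => (hC2 x).trans ((le_max_right _ _).trans (le_max_right _ _))
           ql := fun x hx => exists_QD_q_l hx
           qr := fun x hx => exists_QD_q_r hx
           qb := exists_QD_qb }⟩

end Pool.Agent.KS6_69.Ric.H662.Rz
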