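import Mathlib
import Pool.Agent.KS6_69.Ric.H662.Rg.P_avg

set_option autoImplicit false

namespace Pool.Agent.KS6_69.Ric.H662.Rz

theorem avg {f : ℂ → ℂ} (hf : Differentiable ℂ f) {n l : ℕ} (hl : l < n) {R ρ ε S : ℝ}
    (hR : 0 < R) (hρ0 : 0 < ρ) (hρ1 : ρ < 1)
    (hε : ∀ z : ℂ, ‖z‖ = R → z ^ n = ((R ^ n : ℝ) : ℂ) → ‖f z‖ ≤ ε)
    (hS : ∀ z : ℂ, ‖z‖ = R / ρ → ‖f z‖ ≤ S) :
    ‖iteratedDeriv l f 0 / (l.factorial : ℂ)‖ * R ^ l ≤ ε + S * ρ ^ n / (1 - ρ ^ n) :=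
  Pool.Agent.KS6_69.Ric.H662.Rg.avg hf hl hR hρ0 hρ1 hε hS

end Pool.Agent.KS6_69.Ric.H662.Rz
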