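import Pool.Agent.KS6_69.Ric.H662.Rz.Defs

set_option autoImplicit false
set_option linter.unusedVariables false

namespace Pool.Agent.KS6_69.Ric.H662.Rz
open Set Filter Topology ComplexConjugate Finset


theorem x_far (Q : QD) {K : ℕ → ℕ} {j : ℕ} (hK : 2 ≤ K j) {z : ℂ} :
    (1 / 4 ≤ ‖1 - yy K j z‖ → hh Q K j z = 64 * Q.q (‖yy K j z‖ ^ 2)) ∧
    (2 ≤ ‖yy K j z‖ → hh Q K j z = 64 * (Q.M * Real.log (‖yy K j z‖ ^ 2) + Q.c0)) ∧
    (yy K j z = 1 → hh Q K j z = 64 * Q.q 1 - 2 * Q.M * Real.log (K j)) := by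
  have hK' : (2 : ℝ) ≤ (K j : ℝ) := by exact_mod_cast hK
  have hK0 : (0 : ℝ) < (K j : ℝ) := by linarith
  have e1 : ‖8 * (1 - yy K j z)‖ ^ 2 = 64 * ‖1 - yy K j z‖ ^ 2 := by
    rw [norm_mul]
    have : ‖(8 : ℂ)‖ = 8 := by simp
    rw [this]
    ring
  have e2 : ‖8 * (K j : ℂ) * (1 - yy K j z)‖ ^ 2 = (K j : ℝ) ^ 2 * (64 * ‖1 - yy K j z‖ ^ 2) := by
    rw [norm_mul, norm_mul]
    have h1 : ‖(8 : ℂ)‖ = 8 := by simp
    have h2 : ‖(K j : ℂ)‖ = (K j : ℝ) := by simp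
    rw [h1, h2]
    ring
  have p1 : 1 / 4 ≤ ‖1 - yy K j z‖ → hh Q K j z = 64 * Q.q (‖yy K j z‖ ^ 2) := by
    intro h
    have h3 : 4 ≤ 64 * ‖1 - yy K j z‖ ^ 2 := by nlinarith
    have h4 : 4 ≤ (K j : ℝ) ^ 2 * (64 * ‖1 - yy K j z‖ ^ 2) := by
      have h5 : 1 ≤ (K j : ℝ) ^ 2 := by nlinarith
      nlinarith
    unfold hh
    rw [e1, e2, Q.qr _ h3, Q.qr _ h4, Real.log_mul (by positivity) (by linarith), Real.log_pow]
    push_cast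
    ring
  refine ⟨p1, fun h => ?_, fun h => ?_⟩
  · have h1 : 1 / 4 ≤ ‖1 - yy K j z‖ := by
      have h2 := norm_sub_norm_le (yy K j z) 1
      rw [norm_sub_rev, norm_one] at h2
      linarith
    rw [p1 h1, Q.qr _ (by nlinarith)]
  · unfold hh
    rw [h, sub_self, mul_zero, mul_zero, norm_zero, norm_one, one_pow]
    have h1 : Q.q ((0 : ℝ) ^ 2) = 0 := Q.ql _ (by norm_num)
    rw [h1]
    ring

end Pool.Agent.KS6_69.Ric.H662.Rz
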