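import Pool.Agent.KS6_69.Ric.H662.Rz.Defs
import Pool.Agent.KS6_69.Ric.H662.Rz.P_k_pt
import Pool.Agent.KS6_69.Ric.H662.Rz.P_k_circ
import Pool.Agent.KS6_69.Ric.H662.Rz.P_avg

set_option autoImplicit false
set_option linter.unusedVariables false

namespace Pool.Agent.KS6_69.Ric.H662.Rz
open Set Filter Topology ComplexConjugate Finset


theorem k_coeff (Q : QD) {K : ℕ → ℕ} (hK : ∀ j, 4 ≤ K j) (hmono : Monotone K)
    {f : ℂ → ℂ} (hf : Differentiable ℂ f) {m : ℕ} {C : ℝ} (hC : 0 ≤ C)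
    (hb : ∀ z, ‖f z‖ ^ 2 ≤ C ^ 2 * Real.exp (phi Q K z) ^ m) (l J : ℕ) (hl : l < K (J + 1) ^ 2) :
    ‖iteratedDeriv l f 0 / (l.factorial : ℂ)‖ ≤
      C * Real.exp (m / 2 * ((256 * Q.M + 64 * |Q.c0| + 1)
        * (((J : ℝ) + 3) * 4 ^ ((J + 2) * (2 * K J + 2)))
        + 1 + 64 * |Q.q 1| - 2 * Q.M * Real.log (K (J + 1)) / ((J : ℝ) + 2)))
      + 4 * C * Real.exp (m / 2 * ((256 * Q.M + 64 * |Q.c0| + 1)
        * (((J : ℝ) + 3) * 4 ^ ((J + 2) * (2 * K J + 2)))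
        + 3 + 64 * |Q.c0| + 64 * Q.M * (K (J + 1) : ℝ) / ((J : ℝ) + 2))
        - (K (J + 1) : ℝ) / 5) := by
  set κ : ℝ := (K (J + 1) : ℝ) with hκ
  have hκ4 : 4 ≤ κ := by rw [hκ]; exact_mod_cast hK (J + 1)
  set E1 : ℝ := (256 * Q.M + 64 * |Q.c0| + 1) * (((J : ℝ) + 3) * 4 ^ ((J + 2) * (2 * K J + 2)))
        + 1 + 64 * |Q.q 1| - 2 * Q.M * Real.log κ / ((J : ℝ) + 2) with hE1
  set E2 : ℝ := (256 * Q.M + 64 * |Q.c0| + 1) * (((J : ℝ) + 3) * 4 ^ ((J + 2) * (2 * K J + 2)))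
        + 3 + 64 * |Q.c0| + 64 * Q.M * κ / ((J : ℝ) + 2) with hE2
  have hfb : ∀ z : ℂ, ∀ E : ℝ, phi Q K z ≤ E → ‖f z‖ ≤ C * Real.exp (m / 2 * E) := by
    intro z E hE
    have h1 : ‖f z‖ ^ 2 ≤ (C * Real.exp (m / 2 * E)) ^ 2 := by
      refine (hb z).trans ?_
      rw [mul_pow, ← Real.exp_nat_mul, ← Real.exp_nat_mul]
      refine mul_le_mul_of_nonneg_left ?_ (by positivity)
      apply Real.exp_le_exp.mpr
      have : (m : ℝ) * phi Q K z ≤ m * E := mul_le_mul_of_nonneg_left hE (Nat.cast_nonneg m)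
      push_cast
      linarith
    exact le_of_sq_le_sq h1 (by positivity)
  set ρ : ℝ := Real.exp (-(1 / (2 * (2 * κ + 1)))) with hρ
  have hL : 0 < 2 * (2 * κ + 1) := by linarith
  have hρ1 : ρ < 1 := by
    rw [hρ, Real.exp_lt_one_iff]
    have : 0 < 1 / (2 * (2 * κ + 1)) := by positivity
    linarith
  have key := avg hf (n := K (J + 1) ^ 2) (l := l) hl (R := 2 ^ (J + 1)) (ρ := ρ)
    (ε := C * Real.exp (m / 2 * E1)) (S := C * Real.exp (m / 2 * E2)) (by positivity)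
    (Real.exp_pos _) hρ1 (fun z h1 h2 => hfb z E1 (k_pt Q hK hmono J h1 h2))
    (fun z h1 => hfb z E2 (k_circ Q hK hmono J (by
      rw [h1, hρ, Real.exp_neg, div_inv_eq_mul])))
  have hρn : ρ ^ (K (J + 1) ^ 2) ≤ Real.exp (-κ / 5) := by
    rw [hρ, ← Real.exp_nat_mul]
    apply Real.exp_le_exp.mpr
    push_cast
    rw [← hκ]
    have h1 : κ / 5 ≤ κ ^ 2 * (1 / (2 * (2 * κ + 1))) := by
      rw [mul_one_div, div_le_div_iff₀ (by norm_num) hL]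
      nlinarith
    have h2 : κ ^ 2 * -(1 / (2 * (2 * κ + 1))) = -(κ ^ 2 * (1 / (2 * (2 * κ + 1)))) := by ring
    rw [h2]
    linarith
  have hρ34 : ρ ^ (K (J + 1) ^ 2) ≤ 3 / 4 := by
    refine hρn.trans ?_
    have h1 : Real.exp (-κ / 5) ≤ Real.exp (-(4 / 5)) := Real.exp_le_exp.mpr (by linarith)
    refine h1.trans ?_
    rw [Real.exp_neg]
    have h2 : 4 / 5 + 1 ≤ Real.exp (4 / 5) := Real.add_one_le_exp _
    have h3 : (Real.exp (4 / 5))⁻¹ ≤ (4 / 5 + 1)⁻¹ := inv_anti₀ (by norm_num) h2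
    refine h3.trans (by norm_num)
  have hρpos : 0 < ρ ^ (K (J + 1) ^ 2) := pow_pos (Real.exp_pos _) _
  have h2 : C * Real.exp (m / 2 * E2) * ρ ^ (K (J + 1) ^ 2) / (1 - ρ ^ (K (J + 1) ^ 2)) ≤
      4 * C * Real.exp (m / 2 * E2 - κ / 5) := by
    rw [div_le_iff₀ (by linarith)]
    have h3 : Real.exp (m / 2 * E2 - κ / 5) = Real.exp (m / 2 * E2) * Real.exp (-κ / 5) := by
      rw [← Real.exp_add]; congr 1; ring
    rw [h3]
    have h4 : 0 ≤ C * Real.exp (m / 2 * E2) := by positivity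
    have h5 : ρ ^ (K (J + 1) ^ 2) ≤ 4 * Real.exp (-κ / 5) * (1 - ρ ^ (K (J + 1) ^ 2)) := by
      have h6 : 0 < Real.exp (-κ / 5) := Real.exp_pos _
      nlinarith
    calc C * Real.exp (m / 2 * E2) * ρ ^ (K (J + 1) ^ 2)
        ≤ C * Real.exp (m / 2 * E2) * (4 * Real.exp (-κ / 5) * (1 - ρ ^ (K (J + 1) ^ 2))) :=
          mul_le_mul_of_nonneg_left h5 h4
      _ = _ := by ring
  have h3 : ‖iteratedDeriv l f 0 / (l.factorial : ℂ)‖ ≤
      ‖iteratedDeriv l f 0 / (l.factorial : ℂ)‖ * (2 ^ (J + 1)) ^ l := by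
    have : (1 : ℝ) ≤ (2 ^ (J + 1)) ^ l := one_le_pow₀ (one_le_pow₀ (by norm_num))
    exact le_mul_of_one_le_right (norm_nonneg _) this
  linarith

end Pool.Agent.KS6_69.Ric.H662.Rz
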