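import Pool.Agent.KS6_69.Ric.H662.Rz.Defs

set_option autoImplicit false
set_option linter.unusedVariables false

namespace Pool.Agent.KS6_69.Ric.H662.Rz
open Set Filter Topology ComplexConjugate Finset


theorem k_lim {M c : ℝ} (hM : 0 < M) (hc : 0 ≤ c) (m : ℕ) (hm : 1 ≤ m) (c1 c2 : ℝ) {K : ℕ → ℕ}
    (hK : ∀ j, 4 ≤ K j)
    (hgr : ∀ j : ℕ, ((j : ℝ) + 3) ^ 3 * 4 ^ ((j + 2) * (2 * K j + 2)) ≤ Real.log (K (j + 1))) :
    Tendsto (fun J : ℕ => Real.exp (m / 2 * (c * (((J : ℝ) + 3) * 4 ^ ((J + 2) * (2 * K J + 2)))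
        + c1 - 2 * M * Real.log (K (J + 1)) / ((J : ℝ) + 2)))
      + Real.exp (m / 2 * (c * (((J : ℝ) + 3) * 4 ^ ((J + 2) * (2 * K J + 2)))
        + c2 + 64 * M * (K (J + 1) : ℝ) / ((J : ℝ) + 2)) - (K (J + 1) : ℝ) / 5)) atTop (𝓝 0) := by
  have hm1 : (1 : ℝ) ≤ m := by exact_mod_cast hm
  have hlin : Tendsto (fun J : ℕ => (J : ℝ) + 3) atTop atTop :=
    tendsto_atTop_add_const_right _ 3 tendsto_natCast_atTop_atTop
  have hX : ∀ J : ℕ, (J : ℝ) + 3 ≤ ((J : ℝ) + 3) * 4 ^ ((J + 2) * (2 * K J + 2)) := by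
    intro J
    have h1 : (1 : ℝ) ≤ 4 ^ ((J + 2) * (2 * K J + 2)) := one_le_pow₀ (by norm_num)
    have h2 : (0 : ℝ) ≤ (J : ℝ) + 3 := by positivity
    nlinarith
  have hL : ∀ J : ℕ, ((J : ℝ) + 3) ^ 2 * (((J : ℝ) + 3) * 4 ^ ((J + 2) * (2 * K J + 2))) ≤ Real.log (K (J + 1)) := by
    intro J
    refine le_trans (le_of_eq ?_) (hgr J)
    ring
  have hKL : ∀ J : ℕ, Real.log (K (J + 1)) ≤ (K (J + 1) : ℝ) := by
    intro J
    have h1 : (0 : ℝ) < (K (J + 1) : ℝ) := by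
      have := hK (J + 1)
      positivity
    linarith [Real.log_le_sub_one_of_pos h1]
  have e1 : Tendsto (fun J : ℕ => m / 2 * (c * (((J : ℝ) + 3) * 4 ^ ((J + 2) * (2 * K J + 2)))
        + c1 - 2 * M * Real.log (K (J + 1)) / ((J : ℝ) + 2))) atTop atBot := by
    have hb : Tendsto (fun J : ℕ => (m : ℝ) / 2 * c1 + (-(1/2)) * ((J : ℝ) + 3)) atTop atBot :=
      tendsto_atBot_add_const_left _ _ (Tendsto.const_mul_atTop_of_neg (by norm_num) hlin)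
    refine tendsto_atBot_mono' _ ?_ hb
    have hev : ∀ᶠ J : ℕ in atTop, (c + 1) / (2 * M) ≤ (J : ℝ) + 3 := hlin.eventually_ge_atTop _
    filter_upwards [hev] with J hJ
    have hx := hX J
    have hl := hL J
    set X : ℝ := ((J : ℝ) + 3) * 4 ^ ((J + 2) * (2 * K J + 2)) with hXd
    set L : ℝ := Real.log (K (J + 1)) with hLd
    have hJ0 : (0 : ℝ) ≤ (J : ℝ) := Nat.cast_nonneg J
    have hX0 : 0 ≤ X := by linarith
    have h1 : ((J : ℝ) + 3) * X ≤ L / ((J : ℝ) + 2) := by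
      rw [le_div_iff₀ (by linarith)]
      nlinarith [mul_nonneg hJ0 hX0]
    have h2 : c + 1 ≤ 2 * M * ((J : ℝ) + 3) := by
      rw [div_le_iff₀ (by positivity)] at hJ
      linarith
    have h3 : (c + 1) * X ≤ 2 * M * L / ((J : ℝ) + 2) := by
      calc (c + 1) * X ≤ 2 * M * ((J : ℝ) + 3) * X := mul_le_mul_of_nonneg_right h2 hX0
        _ = 2 * M * (((J : ℝ) + 3) * X) := by ring
        _ ≤ 2 * M * (L / ((J : ℝ) + 2)) := mul_le_mul_of_nonneg_left h1 (by positivity)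
        _ = 2 * M * L / ((J : ℝ) + 2) := by ring
    have h4 : (m : ℝ) / 2 * (c * X + c1 - 2 * M * L / ((J : ℝ) + 2)) ≤ (m : ℝ) / 2 * (c1 - X) :=
      mul_le_mul_of_nonneg_left (by linarith) (by positivity)
    have h5 : (1/2 : ℝ) * X ≤ (m : ℝ) / 2 * X := mul_le_mul_of_nonneg_right (by linarith) hX0
    have h6 : (m : ℝ) / 2 * (c1 - X) = (m : ℝ) / 2 * c1 - (m : ℝ) / 2 * X := by ring
    linarith
  have e2 : Tendsto (fun J : ℕ => m / 2 * (c * (((J : ℝ) + 3) * 4 ^ ((J + 2) * (2 * K J + 2)))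
        + c2 + 64 * M * (K (J + 1) : ℝ) / ((J : ℝ) + 2)) - (K (J + 1) : ℝ) / 5) atTop atBot := by
    have hb : Tendsto (fun J : ℕ => (m : ℝ) / 2 * c2 + (-1) * ((J : ℝ) + 3)) atTop atBot :=
      tendsto_atBot_add_const_left _ _ (Tendsto.const_mul_atTop_of_neg (by norm_num) hlin)
    refine tendsto_atBot_mono' _ ?_ hb
    have hev : ∀ᶠ J : ℕ in atTop, 320 * m * M + 1 ≤ (J : ℝ) + 3 := hlin.eventually_ge_atTop _
    have hev2 : ∀ᶠ J : ℕ in atTop, 10 * ((m : ℝ) / 2 * c + 1) ≤ (J : ℝ) + 3 := hlin.eventually_ge_atTop _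
    filter_upwards [hev, hev2] with J hJ hJ2
    have hx := hX J
    have hl := hL J
    have hkl := hKL J
    set X : ℝ := ((J : ℝ) + 3) * 4 ^ ((J + 2) * (2 * K J + 2)) with hXd
    set L : ℝ := Real.log (K (J + 1)) with hLd
    set k : ℝ := (K (J + 1) : ℝ) with hkd
    have hk0 : 0 ≤ k := Nat.cast_nonneg _
    have hJ0 : (0 : ℝ) ≤ (J : ℝ) := Nat.cast_nonneg J
    have hX0 : 0 ≤ X := by linarith
    have h1 : (m : ℝ) / 2 * (64 * M * k / ((J : ℝ) + 2)) ≤ k / 10 := by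
      have : (m : ℝ) / 2 * (64 * M * k / ((J : ℝ) + 2)) = (32 * m * M * k) / ((J : ℝ) + 2) := by ring
      rw [this, div_le_div_iff₀ (by linarith) (by norm_num)]
      nlinarith [mul_le_mul_of_nonneg_left (show 320 * (m : ℝ) * M ≤ (J : ℝ) + 2 by linarith) hk0]
    have h2 : ((m : ℝ) / 2 * c + 1) * X ≤ ((J : ℝ) + 3) ^ 2 * X / 10 := by
      have h3 : (m : ℝ) / 2 * c + 1 ≤ ((J : ℝ) + 3) ^ 2 / 10 := by
        have : ((J : ℝ) + 3) ≤ ((J : ℝ) + 3) ^ 2 := by nlinarith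
        linarith
      calc ((m : ℝ) / 2 * c + 1) * X ≤ (((J : ℝ) + 3) ^ 2 / 10) * X := mul_le_mul_of_nonneg_right h3 hX0
        _ = _ := by ring
    have h4 : (m : ℝ) / 2 * (c * X + c2 + 64 * M * k / ((J : ℝ) + 2))
        = (m : ℝ) / 2 * c * X + (m : ℝ) / 2 * c2 + (m : ℝ) / 2 * (64 * M * k / ((J : ℝ) + 2)) := by ring
    rw [h4]
    have h5 : ((m : ℝ) / 2 * c + 1) * X = (m : ℝ) / 2 * c * X + X := by ring
    linarith
  have := (Real.tendsto_exp_atBot.comp e1).add (Real.tendsto_exp_atBot.comp e2)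
  rw [add_zero] at this
  exact this

end Pool.Agent.KS6_69.Ric.H662.Rz
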