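import Pool.Agent.KS6_69.Ric.H662.Rz.Defs

set_option autoImplicit false
set_option linter.unusedVariables false

namespace Pool.Agent.KS6_69.Ric.H662.Rz
open Set Filter Topology ComplexConjugate Finset


theorem k_seq (F : ℕ → ℕ → ℝ) : ∃ K : ℕ → ℕ, (∀ j, 4 ≤ K j) ∧ Monotone K ∧
    ∀ j, F j (K j) ≤ Real.log (K (j + 1)) := by
  let K : ℕ → ℕ := fun j => Nat.rec 4 (fun j k => max k ⌈Real.exp (F j k)⌉₊) j
  have hs : ∀ j, K (j + 1) = max (K j) ⌈Real.exp (F j (K j))⌉₊ := fun j => rfl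
  have hm : Monotone K := by
    apply monotone_nat_of_le_succ
    intro j
    rw [hs]
    exact le_max_left _ _
  have h4 : ∀ j, 4 ≤ K j := by
    intro j
    have h1 : K 0 ≤ K j := hm (Nat.zero_le j)
    exact h1
  refine ⟨K, h4, hm, ?_⟩
  intro j
  have h1 : (⌈Real.exp (F j (K j))⌉₊ : ℝ) ≤ (K (j + 1) : ℝ) := by
    rw [hs]
    exact_mod_cast le_max_right _ _
  have h2 : Real.exp (F j (K j)) ≤ (K (j + 1) : ℝ) := (Nat.le_ceil _).trans h1
  have h3 : (0 : ℝ) < (K (j + 1) : ℝ) := lt_of_lt_of_le (Real.exp_pos _) h2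
  exact (Real.le_log_iff_exp_le h3).mpr h2

end Pool.Agent.KS6_69.Ric.H662.Rz
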