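import Pool.Agent.KS6_69.Ric.H662.Rz.Defs
import Pool.Agent.KS6_69.Ric.H662.Rz.P_k_seq
import Pool.Agent.KS6_69.Ric.H662.Rz.P_k_coeff
import Pool.Agent.KS6_69.Ric.H662.Rz.P_k_lim

set_option autoImplicit false
set_option linter.unusedVariables false

namespace Pool.Agent.KS6_69.Ric.H662.Rz
open Set Filter Topology ComplexConjugate Finset


theorem kill (Q : QD) : ∃ K : ℕ → ℕ, (∀ j, 4 ≤ K j) ∧ ∀ m : ℕ, 1 ≤ m → ∀ f : ℂ → ℂ,
    Differentiable ℂ f → ∀ C : ℝ, (∀ z, ‖f z‖ ^ 2 ≤ C * Real.exp (phi Q K z) ^ m) →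
      ∀ z, f z = 0 := by
  obtain ⟨K, hK, hmono, hgr⟩ := k_seq (fun j k => ((j : ℝ) + 3) ^ 3 * 4 ^ ((j + 2) * (2 * k + 2)))
  refine ⟨K, hK, fun m hm f hf C hC z => ?_⟩
  have hC0 : 0 ≤ C := by
    by_contra hneg
    push Not at hneg
    have h1 := hC 0
    have h2 : 0 < Real.exp (phi Q K 0) ^ m := pow_pos (Real.exp_pos _) _
    have h3 : C * Real.exp (phi Q K 0) ^ m < 0 := mul_neg_of_neg_of_pos hneg h2
    have h4 : 0 ≤ ‖f 0‖ ^ 2 := sq_nonneg _
    linarith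
  set D := Real.sqrt C with hD
  have hD0 : 0 ≤ D := Real.sqrt_nonneg _
  have hD2 : D ^ 2 = C := Real.sq_sqrt hC0
  have hKJ : ∀ J : ℕ, J ≤ K (J + 1) := by
    intro J
    have h1 := hgr J
    have h2 : (1 : ℝ) ≤ 4 ^ ((J + 2) * (2 * K J + 2)) := one_le_pow₀ (by norm_num)
    have h3 : (J : ℝ) ≤ ((J : ℝ) + 3) ^ 3 := by
      have : (0 : ℝ) ≤ J := Nat.cast_nonneg _
      nlinarith [sq_nonneg ((J : ℝ) + 3)]
    have h4 : ((J : ℝ) + 3) ^ 3 ≤ ((J : ℝ) + 3) ^ 3 * 4 ^ ((J + 2) * (2 * K J + 2)) :=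
      le_mul_of_one_le_right (by positivity) h2
    have h5 : Real.log (K (J + 1)) ≤ K (J + 1) := Real.log_le_self (Nat.cast_nonneg _)
    have : (J : ℝ) ≤ K (J + 1) := by linarith
    exact_mod_cast this
  have hlim := k_lim (M := Q.M) (c := 256 * Q.M + 64 * |Q.c0| + 1) Q.hM (by
    have := Q.hM
    positivity) m hm (1 + 64 * |Q.q 1|) (3 + 64 * |Q.c0|) hK hgr
  have hzero : ∀ l : ℕ, iteratedDeriv l f 0 / (l.factorial : ℂ) = 0 := by
    intro l
    have h1 : Tendsto (fun J : ℕ => 4 * D * (Real.exp (m / 2 * ((256 * Q.M + 64 * |Q.c0| + 1)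
        * (((J : ℝ) + 3) * 4 ^ ((J + 2) * (2 * K J + 2)))
        + (1 + 64 * |Q.q 1|) - 2 * Q.M * Real.log (K (J + 1)) / ((J : ℝ) + 2)))
      + Real.exp (m / 2 * ((256 * Q.M + 64 * |Q.c0| + 1) * (((J : ℝ) + 3) * 4 ^ ((J + 2) * (2 * K J + 2)))
        + (3 + 64 * |Q.c0|) + 64 * Q.M * (K (J + 1) : ℝ) / ((J : ℝ) + 2)) - (K (J + 1) : ℝ) / 5)))
        atTop (𝓝 (4 * D * 0)) := hlim.const_mul _
    rw [mul_zero] at h1
    have h2 : ‖iteratedDeriv l f 0 / (l.factorial : ℂ)‖ ≤ 0 := by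
      refine ge_of_tendsto h1 ?_
      filter_upwards [eventually_gt_atTop l] with J hJ
      have hlt : l < K (J + 1) ^ 2 := by
        have a1 := hKJ J
        have a2 := hK (J + 1)
        nlinarith
      refine (k_coeff Q hK hmono hf hD0 (by rw [hD2]; exact hC) l J hlt).trans ?_
      rw [← add_assoc, ← add_assoc]
      set E1 := Real.exp (m / 2 * ((256 * Q.M + 64 * |Q.c0| + 1)
        * (((J : ℝ) + 3) * 4 ^ ((J + 2) * (2 * K J + 2)))
        + 1 + 64 * |Q.q 1| - 2 * Q.M * Real.log (K (J + 1)) / ((J : ℝ) + 2))) with hE1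
      have hE1p : 0 < E1 := Real.exp_pos _
      nlinarith [mul_nonneg hD0 hE1p.le]
    exact norm_le_zero_iff.mp h2
  have hs := Complex.hasSum_taylorSeries_of_entire hf 0 z
  have hz : (fun n : ℕ => ((n.factorial : ℂ))⁻¹ • (z - 0) ^ n • iteratedDeriv n f 0) = fun _ => 0 := by
    funext n
    have h1 := hzero n
    have h2 : iteratedDeriv n f 0 = 0 := by
      rcases div_eq_zero_iff.mp h1 with h | h
      · exact h
      · exfalso
        exact (Nat.cast_ne_zero.mpr (Nat.factorial_ne_zero n)) h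
    rw [h2, smul_zero, smul_zero]
  rw [hz] at hs
  exact hs.unique hasSum_zero

end Pool.Agent.KS6_69.Ric.H662.Rz

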